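import Pool.Agent.Mg.F9d0111.G895a8a

section

namespace Pool.Agent.MP9d0111

open Filter Topology
open scoped ENNReal

variable {Γ : Type} [Group Γ] {d : ℕ → ℕ} {σ : ∀ i, Γ → Equiv.Perm (Fin (d i))}

/-- `T`-independent sets -/
def Ind {n : ℕ} (τ : Γ → Equiv.Perm (Fin n)) (T : Finset Γ) (I : Finset (Fin n)) : Prop :=
  ∀ j ∈ I, ∀ t ∈ T, τ t j ∉ I

def DUp (σ : ∀ i, Γ → Equiv.Perm (Fin (d i))) (T : Finset Γ) (β : ℝ) : Prop :=
  ∀ᶠ i in atTop, ∀ I, Ind (σ i) T I → (I.card : ℝ) ≤ β * d i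

def DLo (σ : ∀ i, Γ → Equiv.Perm (Fin (d i))) (T : Finset Γ) (α : ℝ) : Prop :=
  ∃ᶠ i in atTop, ∃ I, Ind (σ i) T I ∧ α * d i ≤ (I.card : ℝ)

omit [Group Γ] in
theorem dlo_empty {α : ℝ} (h : α ≤ 1) : DLo σ ∅ α :=
  Frequently.of_forall fun i => ⟨Finset.univ, fun _ _ _ h => by simp at h, by
    simpa using mul_le_of_le_one_left (Nat.cast_nonneg _) h⟩

theorem third {n : ℕ} (π : Equiv.Perm (Fin n)) (I : Finset (Fin n)) (h : ∀ j ∈ I, π j ≠ j) :
    ∃ S ⊆ I, (∀ j ∈ S, π j ∉ S) ∧ I.card ≤ 3 * S.card := by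
  obtain ⟨S, hS, h1, h2⟩ := exists_max_sep I (fun a b => π a ≠ b ∧ π b ≠ a) fun a b h => h.symm
  refine ⟨S, hS, fun j hj hj' => (h1 hj hj' (h j (hS hj)).symm).1 rfl, ?_⟩
  have : I ⊆ S ∪ S.image π.symm ∪ S.image π := fun a ha => by
    obtain ⟨b, hb, h3⟩ := h2 a ha
    simp only [Finset.mem_union, Finset.mem_image]
    by_cases e1 : π a = b
    · exact Or.inl (Or.inr ⟨b, hb, by rw [← e1]; simp⟩)
    by_cases e2 : π b = a
    · exact Or.inr ⟨b, hb, e2⟩
    exact Or.inl (Or.inl (by rcases h3 with rfl | h3; exacts [hb, absurd ⟨e1, e2⟩ h3]))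
  have h3 := Finset.card_le_card this
  have h4 := Finset.card_union_le (S ∪ S.image π.symm) (S.image π)
  have h5 := Finset.card_union_le S (S.image π.symm)
  have h6 := Finset.card_image_le (s := S) (f := π.symm)
  have h7 := Finset.card_image_le (s := S) (f := π)
  omega

theorem exists_dup [Infinite Γ] (hσ : IsSofic d σ) {β : ℝ} (hβ : 0 < β) :
    ∃ T : Finset Γ, 1 ∉ T ∧ DUp σ T β := by
  classical
  obtain ⟨N, hN⟩ := exists_nat_gt (2 / β)
  have hN0 : (0 : ℝ) < N := lt_trans (by positivity) hN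
  obtain ⟨K, rfl⟩ := Infinite.exists_subset_card_eq Γ N
  refine ⟨((K ×ˢ K).image fun u => u.1⁻¹ * u.2).erase 1, Finset.notMem_erase _ _, ?_⟩
  have hm : ∀ᶠ i in atTop, ∀ u ∈ K ×ˢ K, cnt (fun j => σ i (u.1 * (u.1⁻¹ * u.2)) j ≠
      σ i u.1 (σ i (u.1⁻¹ * u.2) j)) ≤ β / (2 * (K.card * K.card)) * d i :=
    (eventually_all_finset _).2 fun u _ => hσ.mul_ev _ _ (by positivity)
  filter_upwards [hm] with i hi I hI
  have h1 := cnt_ex _ _ hi
  set B : Fin (d i) → Prop := fun j => ∃ u ∈ K ×ˢ K, σ i (u.1 * (u.1⁻¹ * u.2)) j ≠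
      σ i u.1 (σ i (u.1⁻¹ * u.2) j) with hB
  have h2 : (K ×ˢ I.filter fun j => ¬ B j).card ≤ (Finset.univ : Finset (Fin (d i))).card := by
    refine Finset.card_le_card_of_injOn (fun u => σ i u.1 u.2) (fun _ _ => by simp) ?_
    rintro ⟨k, a⟩ ha ⟨k', b⟩ hb h
    simp only [Finset.coe_product, Set.mem_prod, Finset.mem_coe, Finset.mem_filter] at ha hb h
    by_cases e : k = k'
    · subst e; rw [(σ i k).injective h]
    · exfalso
      have h3 : σ i (k' * (k'⁻¹ * k)) a = σ i k' (σ i (k'⁻¹ * k) a) := by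
        by_contra hc
        exact ha.2.2 ⟨(k', k), Finset.mem_product.2 ⟨hb.1, ha.1⟩, hc⟩
      rw [mul_inv_cancel_left, h] at h3
      refine hI a ha.2.1 (k'⁻¹ * k) (Finset.mem_erase.2 ⟨fun h => e ?_,
        Finset.mem_image.2 ⟨(k', k), Finset.mem_product.2 ⟨hb.1, ha.1⟩, rfl⟩⟩) ?_
      · exact (inv_mul_eq_one.1 h).symm
      · rw [← (σ i k').injective h3]; exact hb.2.1
  rw [Finset.card_product, Finset.card_univ, Fintype.card_fin] at h2
  have h3 : (K.card : ℝ) * (I.filter fun j => ¬ B j).card ≤ d i := by exact_mod_cast h2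
  have h4 : (I.card : ℝ) ≤ (I.filter fun j => ¬ B j).card + cnt B := by
    rw [← cnt_mem, ← cnt_mem]
    refine (cnt_mono fun j hj => ?_).trans (cnt_or _ _)
    by_cases h : B j
    · exact Or.inr h
    · exact Or.inl (Finset.mem_filter.2 ⟨hj, h⟩)
  have h5 : ((K ×ˢ K).card : ℝ) * (β / (2 * (K.card * K.card)) * d i) = β / 2 * d i := by
    rw [Finset.card_product]; push_cast; field_simp
  rw [h5] at h1
  rw [div_lt_iff₀ hβ] at hN
  have h6 : ((I.filter fun j => ¬ B j).card : ℝ) ≤ β / 2 * d i := by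
    have h7 : (0 : ℝ) ≤ (I.filter fun j => ¬ B j).card := Nat.cast_nonneg _
    nlinarith
  linarith

theorem density [Infinite Γ] (hσ : IsSofic d σ) {β : ℝ} (hβ : 0 < β) (h1 : β ≤ 1) :
    ∃ T : Finset Γ, 1 ∉ T ∧ DUp σ T β ∧ DLo σ T (β / 4) := by
  classical
  obtain ⟨T, hT, hU⟩ := exists_dup hσ hβ
  induction T using Finset.induction_on with
  | empty => exact ⟨∅, hT, hU, dlo_empty (by linarith)⟩
  | insert t T _ ih =>
    rw [Finset.mem_insert, not_or] at hT
    by_cases h : DUp σ T β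
    · exact ih hT.2 h
    refine ⟨insert t T, by simpa using hT, hU, ?_⟩
    refine ((not_eventually.1 h).and_eventually
      (hσ.fix_ev (Ne.symm hT.1) (show 0 < β / 4 by positivity))).mono ?_
    rintro i ⟨hi, hf⟩
    push Not at hi
    obtain ⟨I, hI, hc⟩ := hi
    obtain ⟨S, hS, h2, h3⟩ := third (σ i t) (I.filter fun j => σ i t j ≠ j)
      fun j hj => (Finset.mem_filter.1 hj).2
    have hSI : S ⊆ I := hS.trans (Finset.filter_subset _ _)
    refine ⟨S, fun j hj u hu => ?_, ?_⟩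
    · rcases Finset.mem_insert.1 hu with rfl | hu
      · exact h2 j hj
      · exact fun h => hI j (hSI hj) u hu (hSI h)
    · have h4 : (I.card : ℝ) ≤ (I.filter fun j => σ i t j ≠ j).card +
          cnt fun j => σ i t j = j := by
        rw [← cnt_mem, ← cnt_mem]
        refine (cnt_mono fun j hj => ?_).trans (cnt_or _ _)
        by_cases h : σ i t j = j
        · exact Or.inr h
        · exact Or.inl (Finset.mem_filter.2 ⟨hj, h⟩)
      have h5 : ((I.filter fun j => σ i t j ≠ j).card : ℝ) ≤ 3 * S.card := by exact_mod_cast h3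
      linarith

end Pool.Agent.MP9d0111

end

section

namespace Pool.Agent.MP9d0111

open Filter Topology
open scoped ENNReal

/-- the full shift over a product of finite alphabets -/
def XX (Γ : Type) (n : ℕ × Bool → ℕ) : Type := (k : ℕ × Bool) → Γ → Fin (n k + 1)

variable {Γ : Type} [Group Γ] {n : ℕ × Bool → ℕ}

instance : TopologicalSpace (XX Γ n) :=
  inferInstanceAs (TopologicalSpace ((k : ℕ × Bool) → Γ → Fin (n k + 1)))

instance : CompactSpace (XX Γ n) :=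
  inferInstanceAs (CompactSpace ((k : ℕ × Bool) → Γ → Fin (n k + 1)))

instance [Countable Γ] : TopologicalSpace.MetrizableSpace (XX Γ n) :=
  inferInstanceAs (TopologicalSpace.MetrizableSpace ((k : ℕ × Bool) → Γ → Fin (n k + 1)))

instance : MulAction Γ (XX Γ n) where
  smul s x := fun k g => x k (g * s)
  one_smul x := by funext k g; exact congrArg (x k) (mul_one g)
  mul_smul s t x := by funext k g; exact congrArg (x k) (mul_assoc g s t).symm

theorem xx_smul (s : Γ) (x : XX Γ n) (k : ℕ × Bool) (g : Γ) : (s • x) k g = x k (g * s) := rfl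

omit [Group Γ] in
theorem xx_cont (k : ℕ × Bool) (g : Γ) : Continuous fun x : XX Γ n => x k g :=
  (continuous_apply g).comp (continuous_apply (A := fun k => Γ → Fin (n k + 1)) k)

instance : ContinuousConstSMul Γ (XX Γ n) :=
  ⟨fun s => continuous_pi fun k => continuous_pi fun g => xx_cont k (g * s)⟩

variable (T : ℕ × Bool → Finset Γ) (r : ℕ → ℝ)

open Classical in
/-- the marked observable -/
noncomputable def ob (k : ℕ × Bool) (x : XX Γ n) : Fin (n k + 1) :=
  if ∀ t ∈ T k, x k t = 0 then x k 1 else 0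

def Sm (k : ℕ × Bool) (x y : XX Γ n) : Prop :=
  ob T k x = ob T k y ∧ ∀ i : ℕ × Bool, i.1 < k.1 → x i 1 = y i 1

open Classical in
noncomputable def tm (k : ℕ × Bool) (z : XX Γ n × XX Γ n) : ℝ :=
  if Sm T k z.1 z.2 then 0 else r k.1

noncomputable def rh (z : XX Γ n × XX Γ n) : ℝ := ⨆ k, tm T r k z

structure Rad (r : ℕ → ℝ) : Prop where
  pos : ∀ j, 0 < r j
  anti : Antitone r
  one : ∀ j, r j ≤ 1
  lim : Tendsto r atTop (𝓝 0)

variable {T r}

theorem ob_congr {k : ℕ × Bool} {x y : XX Γ n} (h1 : x k 1 = y k 1)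
    (h : ∀ t ∈ T k, x k t = y k t) : ob T k x = ob T k y := by
  unfold ob
  rw [h1]
  exact if_congr (forall₂_congr fun t ht => by rw [h t ht]) rfl rfl

theorem le_rh (hr : Rad r) {k : ℕ × Bool} {x y : XX Γ n} (h : ¬ Sm T k x y) :
    r k.1 ≤ rh T r (x, y) := by
  refine le_trans ?_ (le_ciSup (f := fun k => tm T r k (x, y)) ⟨1, ?_⟩ k)
  · simp [tm, h]
  · rintro _ ⟨k, rfl⟩
    simp only [tm]
    split_ifs
    exacts [zero_le_one, hr.one _]

theorem rh_le {x y : XX Γ n} {c : ℝ} (hc : 0 ≤ c) (h : ∀ k, Sm T k x y ∨ r k.1 ≤ c) :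
    rh T r (x, y) ≤ c := by
  refine Real.iSup_le (fun k => ?_) hc
  simp only [tm]
  split_ifs with h1
  exacts [hc, (h k).resolve_left h1]

theorem rh_nonneg (hr : Rad r) (z : XX Γ n × XX Γ n) : 0 ≤ rh T r z :=
  Real.iSup_nonneg fun k => by
    simp only [tm]
    split_ifs
    exacts [le_rfl, (hr.pos _).le]

theorem rh_le_one (hr : Rad r) (z : XX Γ n × XX Γ n) : rh T r z ≤ 1 :=
  rh_le zero_le_one fun _ => Or.inr (hr.one _)

theorem Sm.symm {k : ℕ × Bool} {x y : XX Γ n} (h : Sm T k x y) : Sm T k y x :=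
  ⟨h.1.symm, fun i hi => (h.2 i hi).symm⟩

theorem Sm.trans {k : ℕ × Bool} {x y z : XX Γ n} (h : Sm T k x y) (h' : Sm T k y z) :
    Sm T k x z := ⟨h.1.trans h'.1, fun i hi => (h.2 i hi).trans (h'.2 i hi)⟩

theorem sm_or (hr : Rad r) (k : ℕ × Bool) (x y : XX Γ n) :
    Sm T k x y ∨ r k.1 ≤ rh T r (x, y) := (em _).imp_right (le_rh hr)

theorem rh_symm (hr : Rad r) (x y : XX Γ n) : rh T r (x, y) ≤ rh T r (y, x) :=
  rh_le (rh_nonneg hr _) fun k => (sm_or hr k y x).imp_left Sm.symm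

theorem rh_tri (hr : Rad r) (x y z : XX Γ n) :
    rh T r (x, z) ≤ rh T r (x, y) + rh T r (y, z) := by
  refine rh_le (add_nonneg (rh_nonneg hr _) (rh_nonneg hr _)) fun k => ?_
  rcases sm_or (T := T) hr k x y with h | h
  · rcases sm_or (T := T) hr k y z with h' | h'
    · exact Or.inl (h.trans h')
    · exact Or.inr (by linarith [rh_nonneg (T := T) hr (x, y)])
  · exact Or.inr (by linarith [rh_nonneg (T := T) hr (y, z)])

theorem fin_lt (J : ℕ) : {i : ℕ × Bool | i.1 < J}.Finite :=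
  ((Set.finite_Iio J).prod (Set.finite_univ (α := Bool))).subset fun _ h => ⟨h, trivial⟩

theorem sm_ev (k : ℕ × Bool) (x : XX Γ n) : ∀ᶠ y in 𝓝 x, Sm T k y x := by
  have h : ∀ k g, ∀ᶠ y : XX Γ n in 𝓝 x, y k g = x k g := fun k g =>
    ((xx_cont k g).tendsto x).eventually (p := fun v => v = x k g) (by simp [nhds_discrete])
  filter_upwards [h k 1, (eventually_all_finset (T k)).2 fun t _ => h k t,
    (eventually_all_finite (fin_lt k.1)).2 fun i _ => h i 1] with y h1 h2 h3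
  exact ⟨ob_congr h1 h2, h3⟩

theorem rh_small (hr : Rad r) (x : XX Γ n) {c : ℝ} (hc : 0 < c) :
    ∀ᶠ y in 𝓝 x, rh T r (y, x) ≤ c := by
  obtain ⟨J, hJ⟩ := eventually_atTop.1 (hr.lim.eventually (ge_mem_nhds hc))
  filter_upwards [(eventually_all_finite (fin_lt J)).2 fun k _ => sm_ev (T := T) k x] with y hy
  exact rh_le hc.le fun k => (lt_or_ge k.1 J).imp (hy k) (hJ _)

theorem rh_cont (hr : Rad r) : Continuous (rh T r : XX Γ n × XX Γ n → ℝ) := by
  refine continuous_iff_continuousAt.2 fun z => Metric.tendsto_nhds.2 fun c hc => ?_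
  have hc' : 0 < c / 3 := by positivity
  filter_upwards [(continuous_fst.tendsto z).eventually (rh_small (T := T) hr z.1 hc'),
    (continuous_snd.tendsto z).eventually (rh_small (T := T) hr z.2 hc')] with w h1 h2
  obtain ⟨x, y⟩ := z
  obtain ⟨x', y'⟩ := w
  rw [Real.dist_eq, abs_sub_lt_iff]
  constructor
  · linarith [rh_tri (T := T) hr x' x y', rh_tri (T := T) hr x y y', rh_symm (T := T) hr y y']
  · linarith [rh_tri (T := T) hr x x' y, rh_tri (T := T) hr x' y' y, rh_symm (T := T) hr x x']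

variable (T n) in
/-- the pseudometric -/
noncomputable def rho (hr : Rad r) : PM (XX Γ n) :=
  ⟨⟨rh T r, rh_cont hr⟩,
    fun _ => le_antisymm (rh_le le_rfl fun _ => Or.inl ⟨rfl, fun _ _ => rfl⟩) (rh_nonneg hr _),
    fun x y => le_antisymm (rh_symm hr x y) (rh_symm hr y x), rh_tri hr⟩

theorem rh_gen (hr : Rad r) : DynGen Γ (rh T r : XX Γ n × XX Γ n → ℝ) := by
  intro x y h
  obtain ⟨k, hk⟩ := Function.ne_iff.1 h
  obtain ⟨g, hg⟩ := Function.ne_iff.1 hk
  refine ⟨g, (hr.pos (k.1 + 1)).trans_le (le_rh hr (k := (k.1 + 1, true)) fun h => hg ?_)⟩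
  simpa [xx_smul] using h.2 k (Nat.lt_succ_self _)

variable {d : ℕ → ℕ} {σ : ∀ i, Γ → Equiv.Perm (Fin (d i))}

open Classical in
/-- microstates of a labelling -/
noncomputable def mic {N : ℕ} (τ : Γ → Equiv.Perm (Fin N)) (k : ℕ × Bool)
    (ω : Fin N → Fin (n k + 1)) (j : Fin N) : XX Γ n :=
  Pi.single (M := fun k => Γ → Fin (n k + 1)) k fun g => ω (if g = 1 then j else τ g j)

open Classical in
theorem mic_same {N : ℕ} (τ : Γ → Equiv.Perm (Fin N)) (k : ℕ × Bool)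
    (ω : Fin N → Fin (n k + 1)) (j : Fin N) (g : Γ) :
    mic τ k ω j k g = ω (if g = 1 then j else τ g j) := by simp [mic]

theorem mic_ne {N : ℕ} (τ : Γ → Equiv.Perm (Fin N)) {k k' : ℕ × Bool} (h : k' ≠ k)
    (ω : Fin N → Fin (n k + 1)) (j : Fin N) (g : Γ) : mic τ k ω j k' g = 0 := by
  simp [mic, Pi.single_eq_of_ne h]

theorem mic_mem (hσ : IsSofic d σ) (hr : Rad r) (k : ℕ × Bool) (F : Finset Γ) {δ : ℝ}
    (hδ : 0 < δ) : ∀ᶠ i in atTop, ∀ ω : Fin (d i) → Fin (n k + 1),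
      mic (σ i) k ω ∈ MapSet (rh T r) F δ (σ i) := by
  classical
  set W := insert 1 (T k) with hW
  set ξ : ℝ := δ ^ 2 / (3 * (W.card + 1)) with hξ
  have hξ0 : 0 < ξ := by positivity
  have hm : ∀ᶠ i in atTop, ∀ u ∈ W ×ˢ F,
      cnt (fun j => σ i (u.1 * u.2) j ≠ σ i u.1 (σ i u.2 j)) ≤ ξ * d i :=
    (eventually_all_finset _).2 fun u _ => hσ.mul_ev u.1 u.2 hξ0
  filter_upwards [hm, hσ.mul_ev 1 1 hξ0, hσ.1.eventually_gt_atTop 0] with i hi h1 hn ω
  have h2 : cnt (fun j => σ i 1 j ≠ j) ≤ ξ * d i :=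
    (cnt_mono fun j hj h => hj (by rw [one_mul] at h; exact ((σ i 1).injective h).symm)).trans h1
  refine mem_map_of_bad (rh_nonneg hr) hn hδ.le le_rfl zero_le_one (rh_le_one hr)
    (κ := W.card * (3 * ξ)) ?_ fun s hs => ?_
  · have : (W.card : ℝ) * (3 * ξ) = δ ^ 2 * (W.card / (W.card + 1)) := by
      rw [hξ]; field_simp
    have h3 : (W.card : ℝ) / (W.card + 1) ≤ 1 := by
      rw [div_le_one (by positivity)]; linarith
    rw [this]
    nlinarith [sq_nonneg δ]
  refine (cnt_mono (Q := fun j => ∃ g ∈ W, (σ i (g * s) j ≠ σ i g (σ i s j) ∨ σ i 1 j ≠ j) ∨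
    σ i 1 (σ i s j) ≠ σ i s j) fun j hj => ?_).trans ?_
  · by_contra hc
    push Not at hc
    have key : ∀ k', ∀ g, (k' = k → g ∈ W) →
        mic (σ i) k ω (σ i s j) k' g = (s • mic (σ i) k ω j) k' g := fun k' g hg => by
      rw [xx_smul]
      by_cases e : k' = k
      · subst e
        obtain ⟨⟨g1, g2⟩, g3⟩ := hc g (hg rfl)
        rw [mic_same, mic_same]
        congr 1
        have a1 : (if g = 1 then σ i s j else σ i g (σ i s j)) = σ i g (σ i s j) := by
          split_ifs with h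
          exacts [by rw [h, g3], rfl]
        have a2 : (if g * s = 1 then j else σ i (g * s) j) = σ i (g * s) j := by
          split_ifs with h
          exacts [by rw [h, g2], rfl]
        rw [a1, a2, g1]
      · rw [mic_ne _ e, mic_ne _ e]
    refine absurd (rh_le le_rfl fun k' => Or.inl ⟨ob_congr (key _ _ fun _ => by simp [hW])
      fun t ht => key _ _ fun e => ?_, fun i _ => key _ _ fun _ => by simp [hW]⟩) (not_le.2 hj)
    rw [e] at ht
    exact Finset.mem_insert_of_mem ht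
  · rw [mul_assoc]
    refine cnt_ex _ _ fun g hg => ?_
    have h3 := h2
    rw [← cnt_comp (σ i s)] at h3
    exact (cnt_or_le (cnt_or_le (hi (g, s) (Finset.mem_product.2 ⟨hg, hs⟩)) h2) h3).trans
      (le_of_eq (by ring))

theorem vis {X : Type} {ρ : X × X → ℝ} (h0 : ∀ z, 0 ≤ ρ z) {q : ℝ≥0∞} (hq0 : q ≠ 0)
    {ε R κ : ℝ} (hε : 0 ≤ ε) (hR : 0 ≤ R) (hκ : 0 < κ) (h1 : ε ≤ R)
    (h2 : q ≠ ⊤ → ε ^ q.toReal ≤ κ * R ^ q.toReal) {N : ℕ} (hN : 0 < N) {φ ψ : Fin N → X}
    (h : κ * N ≤ cnt fun j => R ≤ ρ (φ j, ψ j)) : ε ≤ rhoP ρ q φ ψ := by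
  classical
  rw [cnt_eq] at h
  by_cases hq : q = ⊤
  · have : 0 < (Finset.univ.filter fun j => R ≤ ρ (φ j, ψ j)).card := by
      have : (0 : ℝ) < κ * N := mul_pos hκ (by exact_mod_cast hN)
      exact_mod_cast this.trans_le h
    obtain ⟨j, hj⟩ := Finset.card_pos.1 this
    rw [hq]
    exact h1.trans ((Finset.mem_filter.1 hj).2.trans (le_rhoP_top φ ψ j))
  rw [le_rhoP_iff h0 hq0 hq hN _ _ hε]
  calc _ ≤ κ * N * R ^ q.toReal := by
        nlinarith [mul_le_mul_of_nonneg_right (h2 hq) (Nat.cast_nonneg (α := ℝ) N)]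
    _ ≤ ∑ _j ∈ Finset.univ.filter fun j => R ≤ ρ (φ j, ψ j), R ^ q.toReal := by
        rw [Finset.sum_const, nsmul_eq_mul]
        exact mul_le_mul_of_nonneg_right h (Real.rpow_nonneg hR _)
    _ ≤ ∑ j ∈ Finset.univ.filter fun j => R ≤ ρ (φ j, ψ j), ρ (φ j, ψ j) ^ q.toReal :=
        Finset.sum_le_sum fun j hj =>
          Real.rpow_le_rpow hR (Finset.mem_filter.1 hj).2 ENNReal.toReal_nonneg
    _ ≤ _ := Finset.sum_le_sum_of_subset_of_nonneg (Finset.filter_subset _ _)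
          fun j _ _ => Real.rpow_nonneg (h0 _) _

theorem lo_atom (hσ : IsSofic d σ) (hr : Rad r) (k : ℕ × Bool) (hT : 1 ∉ T k) {α κ ε c : ℝ}
    (hL : DLo σ (T k) α) {q : ℝ≥0∞} (hq0 : q ≠ 0) (hε : 0 ≤ ε) (hκ : 0 < κ) (h1 : ε ≤ r k.1)
    (h2 : q ≠ ⊤ → ε ^ q.toReal ≤ κ * r k.1 ^ q.toReal)
    (hc : c + Real.log 2 + κ * Real.log (n k + 1) ≤ α * Real.log (n k + 1)) :
    Lo σ (rh T r : XX Γ n × XX Γ n → ℝ) (fun _ => rhoP (rh T r) q) ε c := by
  classical
  intro F δ hδ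
  refine (hL.and_eventually ((mic_mem (n := n) (T := T) hσ hr k F hδ).and
    (hσ.1.eventually_gt_atTop 0))).mono ?_
  rintro i ⟨⟨I, hI, hI2⟩, hm, hn⟩
  set A : Finset (Fin (d i) → Fin (n k + 1)) :=
    Fintype.piFinset fun j => if j ∈ I then Finset.univ else {0} with hA
  have hA0 : ∀ ω ∈ A, ∀ j, j ∉ I → ω j = 0 := fun ω hω j hj => by
    simpa [hj] using Fintype.mem_piFinset.1 hω j
  have hob : ∀ ω ∈ A, ∀ j ∈ I, ob T k (mic (σ i) k ω j) = ω j := fun ω hω j hj => by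
    rw [ob, if_pos, mic_same, if_pos rfl]
    intro t ht
    rw [mic_same, if_neg (by rintro rfl; exact hT ht)]
    exact hA0 ω hω _ (hI j hj t ht)
  obtain ⟨S, hSA, hS, hmax⟩ := exists_max_sep A
    (fun a b => κ * d i ≤ cnt fun j => a j ≠ b j) fun a b h => by simpa only [ne_comm] using h
  have hM : (1 : ℝ) ≤ n k + 1 := by linarith [Nat.cast_nonneg (α := ℝ) (n k)]
  have hd : (0 : ℝ) < d i := by exact_mod_cast hn
  have key := count_le (n := d i) A S Finset.univ (k := κ * d i) hM (by simp)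
    (fun a j => a j) (fun a b j => a j = b j) (fun _ _ _ => Finset.mem_univ _) ?_ ?_
  · have hAc : (A.card : ℝ) = (n k + 1) ^ I.card := by
      rw [hA, Fintype.card_piFinset]
      simp [apply_ite Finset.card, Finset.prod_ite_mem]
    have hinj : Function.Injective (mic (n := n) (σ i) k) := fun a b h => by
      funext j
      have := congrFun (congrFun (congrFun h j) k) 1
      rwa [mic_same, mic_same, if_pos rfl] at this
    refine ⟨S.image (mic (σ i) k), ?_, ?_, ?_⟩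
    · rw [Finset.coe_image]
      rintro _ ⟨ω, -, rfl⟩
      exact hm ω
    · rw [Finset.coe_image]
      rintro _ ⟨a, ha, rfl⟩ _ ⟨b, hb, rfl⟩ hne
      refine vis (rh_nonneg hr) hq0 hε (hr.pos _).le hκ h1 h2 hn
        ((hS ha hb fun h => hne (by rw [h])).trans (cnt_mono fun j hj => le_rh hr fun h => hj ?_))
      by_cases hjI : j ∈ I
      · rw [← hob a (hSA ha) j hjI, ← hob b (hSA hb) j hjI]; exact h.1
      · rw [hA0 a (hSA ha) j hjI, hA0 b (hSA hb) j hjI]
    · rw [Finset.card_image_of_injective _ hinj]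
      refine le_of_mul_le_mul_right (le_trans ?_ key)
        (by positivity : (0 : ℝ) < 2 ^ d i * (n k + 1) ^ (κ * d i))
      rw [exp_count _ _ (by positivity), hAc, ← Real.rpow_natCast,
        Real.rpow_def_of_pos (by positivity), Real.exp_le_exp]
      nlinarith [mul_le_mul_of_nonneg_right hc hd.le,
        mul_le_mul_of_nonneg_left hI2 (Real.log_nonneg hM)]
  · intro a ha
    obtain ⟨b, hb, hab⟩ := hmax a ha
    refine ⟨b, hb, ?_⟩
    rw [← cnt_eq]
    rcases hab with rfl | hab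
    · simp only [cnt_eq, not_true, Finset.filter_false, Finset.card_empty, Nat.cast_zero]
      positivity
    · exact (not_le.1 hab).le
  · intro a _ a' _ b _ h
    funext j
    rcases h j with ⟨g1, g2⟩ | g
    exacts [g1.trans g2.symm, g]

variable (n) in
/-- size of the code of the earlier stages -/
def PP (j : ℕ) : ℕ := ∏ i ∈ Finset.range j, ((n (i, true) + 1) ^ 2 * (n (i, false) + 1) ^ 2)

theorem up_stage (hσ : IsSofic d σ) (hr : Rad r) (j : ℕ) {p : ℝ≥0∞} (hp : 1 ≤ p) {e : ℝ}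
    (he : r (j + 1) = e / 2) (hT : T (j, false) = ∅) (h1 : p = ⊤ → n (j, true) = 0)
    (h2 : p ≠ ⊤ → DUp σ (T (j, true)) (e ^ p.toReal / 8)) :
    ∃ F δ, 0 < δ ∧ Bd σ (rh T r : XX Γ n × XX Γ n → ℝ) F δ (fun _ => rhoP (rh T r) p) e
      (Real.log (PP n j * (n (j, false) + 1))) := by
  classical
  have hr1 := hr.pos (j + 1)
  have he0 : 0 < e := by linarith
  have hp0 : p ≠ 0 := (zero_lt_one.trans_le hp).ne'
  set β := e ^ p.toReal / 8 with hβ
  have hβ0 : 0 < β := by positivity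
  set ξ := β / (2 * ((T (j, true)).card + 1)) with hξ
  have hξ0 : 0 < ξ := by positivity
  refine ⟨T (j, true), r (j + 1) * √ξ, by positivity, ?_⟩
  have h3 : ∀ᶠ i in atTop, p ≠ ⊤ → ∀ I, Ind (σ i) (T (j, true)) I → (I.card : ℝ) ≤ β * d i := by
    by_cases h : p = ⊤
    · exact Eventually.of_forall fun _ h' => absurd h h'
    · exact (h2 h).mono fun _ h _ => h
  filter_upwards [h3, hσ.1.eventually_gt_atTop 0] with i hi hn S hS1 hS2
  have hd : (0 : ℝ) < d i := by exact_mod_cast hn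
  have hJ : p ≠ ⊤ → ∀ φ ∈ S, cnt (fun a => ob T (j, true) (φ a) ≠ 0) ≤ 3 / 2 * β * d i := by
    intro hp' φ hφ
    set B : Fin (d i) → Prop := fun a => ∃ t ∈ T (j, true),
      r (j + 1) ≤ rh T r (φ (σ i t a), t • φ a) with hB
    have b1 : cnt B ≤ β / 2 * d i := by
      refine (cnt_ex _ _ fun t ht => map_bad (rh_nonneg hr) hn (by positivity) hr1
        (hS1 hφ) ht).trans ?_
      rw [mul_div_cancel_left₀ _ hr1.ne', Real.sq_sqrt hξ0.le, ← mul_assoc]
      refine mul_le_mul_of_nonneg_right ?_ hd.le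
      rw [hξ, ← mul_div_assoc, div_le_div_iff₀ (by positivity) two_pos]
      nlinarith
    have b2 := hi hp' (Finset.univ.filter fun a => ob T (j, true) (φ a) ≠ 0 ∧ ¬ B a) (by
      intro a ha t ht ha'
      simp only [Finset.mem_filter, Finset.mem_univ, true_and] at ha ha'
      have c1 : φ a (j, true) t = 0 := by
        by_contra hc
        exact ha.1 (if_neg fun h => hc (h t ht))
      have c2 := (sm_or (T := T) hr (j + 1, true) (φ (σ i t a)) (t • φ a)).resolve_right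
        fun h => ha.2 ⟨t, ht, h⟩
      have c3 := c2.2 (j, true) (Nat.lt_succ_self _)
      rw [xx_smul, one_mul, c1] at c3
      exact ha'.1 (by rw [ob, c3, ite_self]))
    rw [← cnt_eq] at b2
    refine (cnt_mono (Q := fun a => (ob T (j, true) (φ a) ≠ 0 ∧ ¬ B a) ∨ B a)
      fun a ha => by tauto).trans ((cnt_or_le b2 b1).trans (le_of_eq (by ring)))
  have hinj : S.card ≤ (Finset.univ : Finset (Fin (d i) →
      ((u : Fin j × Bool) → Fin (n (u.1, u.2) + 1) × Fin (n (u.1, u.2) + 1)) ×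
        Fin (n (j, false) + 1))).card := by
    refine Finset.card_le_card_of_injOn (fun φ a =>
      (fun u => (φ a (u.1, u.2) 1, ob T (u.1, u.2) (φ a)), φ a (j, false) 1))
      (fun _ _ => by simp) fun φ hφ ψ hψ h => ?_
    by_contra hne
    have g0 : e ≤ rhoP (rh T r) p φ ψ := hS2 hφ hψ hne
    have g1 : ∀ a, ob T (j, true) (φ a) = ob T (j, true) (ψ a) →
        rh T r (φ a, ψ a) ≤ e / 2 := fun a ha => by
      have c1 := congrArg Prod.fst (congrFun h a)
      have c2 : φ a (j, false) 1 = ψ a (j, false) 1 := congrArg Prod.snd (congrFun h a)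
      have c3 : ∀ k : ℕ × Bool, k.1 < j → φ a k 1 = ψ a k 1 ∧ ob T k (φ a) = ob T k (ψ a) :=
        fun k hk => Prod.mk.inj (congrFun c1 (⟨k.1, hk⟩, k.2))
      refine rh_le (by positivity) fun k => ?_
      rcases lt_trichotomy k.1 j with hk | hk | hk
      · exact Or.inl ⟨(c3 k hk).2, fun u hu => (c3 u (hu.trans hk)).1⟩
      · obtain ⟨k, b⟩ := k
        obtain rfl : k = j := hk
        refine Or.inl ⟨?_, fun u hu => (c3 u hu).1⟩
        cases b
        · exact ob_congr c2 (by simp [hT])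
        · exact ha
      · exact Or.inr (he ▸ hr.anti hk)
    by_cases hp' : p = ⊤
    · rw [hp'] at g0
      have : rhoP (rh T r) ⊤ φ ψ ≤ e / 2 := rhoP_top_le (by positivity) fun a => g1 a (by
        have z1 := (ob T (j, true) (φ a)).2
        have z2 := (ob T (j, true) (ψ a)).2
        have z3 := h1 hp'
        exact Fin.ext (by omega))
      linarith
    · rw [le_rhoP_iff (rh_nonneg hr) hp0 hp' hn _ _ he0.le] at g0
      have g2 := cnt_or_le (hJ hp' φ hφ) (hJ hp' ψ hψ)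
      rw [cnt_eq] at g2
      have g3 := sum_le_of_bad (rh_nonneg (T := T) hr) (q := p.toReal) ENNReal.toReal_nonneg
        (φ := φ) (ψ := ψ) (t := e / 2) (κ := 3 * β) (by positivity) zero_le_one _
        (fun a _ => rh_le_one hr _) (g2.trans (le_of_eq (by ring))) fun a ha => g1 a (by
          simp only [Finset.mem_filter, Finset.mem_univ, true_and, not_or, not_not] at ha
          rw [ha.1, ha.2])
      have g4 : (e / 2) ^ p.toReal ≤ e ^ p.toReal / 2 := by
        rw [Real.div_rpow he0.le zero_le_two]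
        refine div_le_div_of_nonneg_left (by positivity) two_pos ?_
        simpa using Real.rpow_le_rpow_of_exponent_le one_le_two (ENNReal.toReal_mono hp' hp)
      rw [Real.one_rpow] at g3
      have g5 := le_of_mul_le_mul_right (g0.trans g3) hd
      linarith
  have hc : Fintype.card ((u : Fin j × Bool) →
      Fin (n (u.1, u.2) + 1) × Fin (n (u.1, u.2) + 1)) = PP n j := by
    rw [Fintype.card_pi, Fintype.prod_prod_type, PP, ← Fin.prod_univ_eq_prod_range
      (fun i => (n (i, true) + 1) ^ 2 * (n (i, false) + 1) ^ 2)]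
    simp [sq]
  rw [Finset.card_univ, Fintype.card_fun, Fintype.card_prod, hc, Fintype.card_fin,
    Fintype.card_fin] at hinj
  have hP : 0 < PP n j := Finset.prod_pos fun _ _ => by positivity
  rw [mul_comm, Real.exp_nat_mul, Real.exp_log (by positivity)]
  exact_mod_cast hinj

end Pool.Agent.MP9d0111

end

section

namespace Pool.Agent.MP9d0111

open Filter Topology
open scoped ENNReal

theorem rhoP_mono {X : Type} {ρ : X × X → ℝ} {n : ℕ} (h0 : ∀ z, 0 ≤ ρ z) {p q : ℝ≥0∞}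
    (hp0 : p ≠ 0) (hpq : p ≤ q) (hn : 0 < n) (φ ψ : Fin n → X) :
    rhoP ρ p φ ψ ≤ rhoP ρ q φ ψ := by
  by_cases hq : q = ⊤
  · rw [hq]; exact rhoP_le_top h0 hp0 hn φ ψ
  have hp : p ≠ ⊤ := ne_top_of_le_ne_top hq hpq
  have hq0 : q ≠ 0 := fun h => hp0 (le_antisymm (h ▸ hpq) zero_le)
  have p0 : 0 < p.toReal := ENNReal.toReal_pos hp0 hp
  have pq : p.toReal ≤ q.toReal := ENNReal.toReal_mono hq hpq
  have n0 : (0 : ℝ) < n := by exact_mod_cast hn
  rw [le_rhoP_iff h0 hq0 hq hn _ _ (rhoP_nonneg h0 _ _ _), rhoP_fin hp,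
    ← Real.rpow_mul (avg_nonneg h0 _ _ _), ← le_div_iff₀ n0]
  have := Real.rpow_arith_mean_le_arith_mean_rpow Finset.univ (fun _ : Fin n => (n : ℝ)⁻¹)
    (fun j => ρ (φ j, ψ j) ^ p.toReal) (fun _ _ => by positivity) (by simp [n0.ne'])
    (fun _ _ => Real.rpow_nonneg (h0 _) _) (p := 1 / p.toReal * q.toReal)
    (by rw [one_div, ← div_eq_inv_mul, le_div_iff₀ p0]; linarith)
  simp only [← Finset.mul_sum, ← Real.rpow_mul (h0 _)] at this
  rw [show p.toReal * (1 / p.toReal * q.toReal) = q.toReal by field_simp] at this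
  simpa only [div_eq_inv_mul] using this

variable {Γ X : Type} [Group Γ] [MulAction Γ X] [TopologicalSpace X] {d : ℕ → ℕ}
  {σ : ∀ i, Γ → Equiv.Perm (Fin (d i))}

theorem mdim_mono (hd : Tendsto d atTop atTop) (ρ : PM X) {p q : ℝ≥0∞} (hp0 : p ≠ 0)
    (hpq : p ≤ q) : mdim d σ p ρ.1 ≤ mdim d σ q ρ.1 :=
  gdim_mono hd fun _ hn a b => rhoP_mono ρ.nonneg hp0 hpq hn a b

theorem tendsto_logi : Tendsto (fun ε : ℝ => Real.log (1 / ε)) (𝓝[>] 0) atTop := by
  simp only [one_div]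
  exact Real.tendsto_log_atTop.comp tendsto_inv_nhdsGT_zero

theorem mdim_ratio [CompactSpace X] (hd : Tendsto d atTop atTop) (ρ : PM X) {p q : ℝ≥0∞}
    (hp0 : p ≠ 0) (hpq : p ≤ q) (hq : q ≠ ⊤) {a a' : ℝ} (ha : mdim d σ p ρ.1 < a)
    (ha' : a * q.toReal / p.toReal < a') : mdim d σ q ρ.1 ≤ a' := by
  have hp : p ≠ ⊤ := ne_top_of_le_ne_top hq hpq
  have hq0 : q ≠ 0 := fun h => hp0 (le_antisymm (h ▸ hpq) zero_le)
  have p0 : 0 < p.toReal := ENNReal.toReal_pos hp0 hp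
  have q0 : 0 < q.toReal := ENNReal.toReal_pos hq0 hq
  have pq : p.toReal ≤ q.toReal := ENNReal.toReal_mono hq hpq
  obtain ⟨D, hD1, hD⟩ : ∃ D : ℝ, 1 ≤ D ∧ ∀ z, ρ.1 z ≤ D := by
    obtain ⟨D, h0, h⟩ := ρ.bdd
    exact ⟨D + 1, by linarith, fun z => by linarith [h z]⟩
  have hD0 : 0 < D := by linarith
  have hT : Tendsto (fun e : ℝ => D * e ^ (p.toReal / q.toReal)) (𝓝[>] 0) (𝓝[>] 0) := by
    refine tendsto_nhdsWithin_iff.2 ⟨?_, ?_⟩
    · have : Tendsto (fun e : ℝ => D * e ^ (p.toReal / q.toReal)) (𝓝 0)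
          (𝓝 (D * 0 ^ (p.toReal / q.toReal))) :=
        (continuous_const.mul (Real.continuous_rpow_const (by positivity))).tendsto 0
      rw [Real.zero_rpow (by positivity), mul_zero] at this
      exact this.mono_left nhdsWithin_le_nhds
    · filter_upwards [self_mem_nhdsWithin] with e he using
        mul_pos hD0 (Real.rpow_pos_of_pos he _)
  refine gdim_le hd fun b hb => ?_
  obtain ⟨e, ⟨he, -, F, δ, hδ, hB⟩, ⟨hε, hεb⟩, g1⟩ := ((of_gdim_lt hd ha).and_eventually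
    ((hT.eventually (ev_small hb)).and ((tendsto_logi.comp hT).eventually_ge_atTop
      (a * q.toReal / p.toReal * Real.log D / (a' - a * q.toReal / p.toReal))))).exists
  refine ⟨_, hε, hεb, F, δ, hδ, hB.mono (Eventually.of_forall fun _ => le_rfl)
    (fun n hn φ ψ h => ?_) ?_ hd⟩
  · rw [le_rhoP_iff ρ.nonneg hq0 hq hn _ _ hε.le, Real.mul_rpow hD0.le (by positivity),
      ← Real.rpow_mul he.le, div_mul_cancel₀ _ q0.ne', mul_assoc] at h
    rw [le_rhoP_iff ρ.nonneg hp0 hp hn _ _ he.le]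
    refine le_of_mul_le_mul_left (h.trans ?_) (Real.rpow_pos_of_pos hD0 q.toReal)
    rw [Finset.mul_sum]
    refine Finset.sum_le_sum fun j _ => ?_
    have h0 := ρ.nonneg (φ j, ψ j)
    calc _ = ρ.1 (φ j, ψ j) ^ (q.toReal - p.toReal) * ρ.1 (φ j, ψ j) ^ p.toReal := by
          rw [← Real.rpow_add_of_nonneg h0 (by linarith) p0.le, sub_add_cancel]
      _ ≤ _ := mul_le_mul_of_nonneg_right
          ((Real.rpow_le_rpow h0 (hD _) (by linarith)).trans
            (Real.rpow_le_rpow_of_exponent_le hD1 (by linarith))) (Real.rpow_nonneg h0 _)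
  · simp only [Function.comp_apply] at g1
    rw [div_le_iff₀ (sub_pos.2 ha')] at g1
    have e1 : Real.log (1 / e) = q.toReal / p.toReal *
        (Real.log (1 / (D * e ^ (p.toReal / q.toReal))) + Real.log D) := by
      rw [one_div, one_div, Real.log_inv, Real.log_inv, Real.log_mul hD0.ne' (by positivity),
        Real.log_rpow he]
      field_simp
      ring
    rw [e1]
    generalize Real.log (1 / (D * e ^ (p.toReal / q.toReal))) = L at g1 ⊢
    have : a * (q.toReal / p.toReal * (L + Real.log D)) =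
      a * q.toReal / p.toReal * L + a * q.toReal / p.toReal * Real.log D := by ring
    linarith

end Pool.Agent.MP9d0111

end

section

namespace Pool.Agent.MP9d0111

open Filter Topology
open scoped ENNReal

variable {Γ : Type} [Group Γ] {d : ℕ → ℕ} {σ : ∀ i, Γ → Equiv.Perm (Fin (d i))}

/-- the data of one stage -/
structure St (σ : ∀ i, Γ → Equiv.Perm (Fin (d i))) (j : ℕ) (p : ℝ≥0∞) (G r : ℝ) (P : ℕ) (e : ℝ)
    (n m : ℕ) (T : Finset Γ) : Prop where
  e0 : 0 < e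
  er : e ≤ r
  big : (j + 1) * (Real.log 64 + j * Real.log (1 / r) + Real.log (2 * (j + 2)) + Real.log P + 1) ≤
    Real.log (1 / e)
  n1 : G * Real.log (1 / e) ≤ Real.log (n + 1)
  n2 : Real.log (n + 1) ≤ G * Real.log (1 / e) + 1
  t1 : 1 ∉ T
  top : p = ⊤ → m = 0
  up : p ≠ ⊤ → DUp σ T (e ^ p.toReal / 8)
  lo : p ≠ ⊤ → DLo σ T (e ^ p.toReal / 8 / 4)
  m1 : p ≠ ⊤ → j * (Real.log (1 / e) + Real.log (2 * (j + 2))) + Real.log 2 ≤
    e ^ p.toReal / 64 * Real.log (m + 1)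

theorem logi_nonneg {r : ℝ} (h0 : 0 < r) (h1 : r ≤ 1) : 0 ≤ Real.log (1 / r) :=
  Real.log_nonneg (by rw [le_div_iff₀ h0]; linarith)

theorem log2j (j : ℕ) : 0 ≤ Real.log (2 * (j + 2)) :=
  Real.log_nonneg (by linarith [Nat.cast_nonneg (α := ℝ) j])

theorem stage [Infinite Γ] (hσ : IsSofic d σ) (j : ℕ) (p : ℝ≥0∞) {G : ℝ} (hG : 0 ≤ G)
    (s : ℝ × ℕ) : ∃ (e : ℝ) (n m : ℕ) (T : Finset Γ), 0 < s.1 → s.1 ≤ 1 →
      St σ j p G s.1 s.2 e n m T := by
  by_cases hs : 0 < s.1 ∧ s.1 ≤ 1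
  swap
  · exact ⟨0, 0, 0, ∅, fun h1 h2 => absurd ⟨h1, h2⟩ hs⟩
  obtain ⟨r, P⟩ := s
  obtain ⟨h0, h1⟩ : 0 < r ∧ r ≤ 1 := hs
  set C := (j + 1) * (Real.log 64 + j * Real.log (1 / r) + Real.log (2 * (j + 2)) +
    Real.log P + 1) with hC
  have l1 := logi_nonneg h0 h1
  have hC0 : 0 ≤ C := by
    have := log2j j
    have := Real.log_natCast_nonneg P
    have : 0 ≤ Real.log 64 := Real.log_nonneg (by norm_num)
    positivity
  set e := r * Real.exp (-C) with he
  have e0 : 0 < e := by positivity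
  have er : e ≤ r := mul_le_of_le_one_right h0.le (Real.exp_le_one_iff.2 (by linarith))
  have big : C ≤ Real.log (1 / e) := by
    rw [he, one_div, Real.log_inv, Real.log_mul h0.ne' (by positivity), Real.log_exp]
    rw [one_div, Real.log_inv] at l1
    linarith
  have hx : 1 ≤ Real.exp (G * Real.log (1 / e)) :=
    Real.one_le_exp (mul_nonneg hG (hC0.trans big))
  have n1 : G * Real.log (1 / e) ≤ Real.log (⌊Real.exp (G * Real.log (1 / e))⌋₊ + 1) := by
    rw [Real.le_log_iff_exp_le (by positivity)]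
    exact (Nat.lt_floor_add_one _).le
  have n2 : Real.log (⌊Real.exp (G * Real.log (1 / e))⌋₊ + 1) ≤ G * Real.log (1 / e) + 1 := by
    rw [Real.log_le_iff_le_exp (by positivity), Real.exp_add]
    nlinarith [Nat.floor_le (zero_le_one.trans hx), Real.add_one_le_exp (1 : ℝ)]
  by_cases hp : p = ⊤
  · exact ⟨e, _, 0, ∅, fun _ _ => ⟨e0, er, big, n1, n2, by simp, fun _ => rfl,
      fun h => absurd hp h, fun h => absurd hp h, fun h => absurd hp h⟩⟩
  have b0 : 0 < e ^ p.toReal := by positivity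
  obtain ⟨T, t1, t2, t3⟩ := density hσ (β := e ^ p.toReal / 8) (by positivity) (by
    linarith [Real.rpow_le_one e0.le (er.trans h1) (ENNReal.toReal_nonneg (a := p))])
  refine ⟨e, _, ⌊Real.exp ((j * (Real.log (1 / e) + Real.log (2 * (j + 2))) + Real.log 2) /
    (e ^ p.toReal / 64))⌋₊, T, fun _ _ => ⟨e0, er, big, n1, n2, t1, fun h => absurd h hp,
    fun _ => t2, fun _ => t3, fun _ => ?_⟩⟩
  rw [← div_le_iff₀' (by positivity), Real.le_log_iff_exp_le (by positivity)]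
  exact (Nat.lt_floor_add_one _).le

theorem construct [Infinite Γ] (hσ : IsSofic d σ) (p : ℕ → ℝ≥0∞) (G : ℕ → ℝ)
    (hG : ∀ j, 0 ≤ G j) : ∃ (n : ℕ × Bool → ℕ) (T : ℕ × Bool → Finset Γ) (r e : ℕ → ℝ), Rad r ∧
      (∀ j, r (j + 1) = e j / 2) ∧ (∀ j, T (j, false) = ∅) ∧ ∀ j, St σ j (p j) (G j) (r j)
        (PP n j) (e j) (n (j, false)) (n (j, true)) (T (j, true)) := by
  choose e n m T h using fun j s => stage hσ j (p j) (hG j) s
  let s : ℕ → ℝ × ℕ := fun j => Nat.rec (1, 1)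
    (fun j s => (e j s / 2, s.2 * ((m j s + 1) ^ 2 * (n j s + 1) ^ 2))) j
  have s1 : ∀ j, (s (j + 1)).1 = e j (s j) / 2 := fun _ => rfl
  have h1 : ∀ j, 0 < (s j).1 ∧ (s j).1 ≤ (1 / 2) ^ j := fun j => by
    induction j with
    | zero => exact ⟨one_pos, le_of_eq (pow_zero _).symm⟩
    | succ j ih =>
      have := h j (s j) ih.1 (ih.2.trans (pow_le_one₀ (by norm_num) (by norm_num)))
      rw [s1, pow_succ]
      exact ⟨half_pos this.e0, by linarith [this.er, ih.2]⟩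
  have h2 : ∀ j, (s j).1 ≤ 1 := fun j => (h1 j).2.trans (pow_le_one₀ (by norm_num) (by norm_num))
  have h3 := fun j => h j (s j) (h1 j).1 (h2 j)
  have h4 : ∀ j, PP (fun k => bif k.2 then m k.1 (s k.1) else n k.1 (s k.1)) j = (s j).2 :=
    fun j => by
      induction j with
      | zero => rfl
      | succ j ih => exact (Finset.prod_range_succ _ j).trans (congrArg (· * _) ih)
  refine ⟨fun k => bif k.2 then m k.1 (s k.1) else n k.1 (s k.1),
    fun k => bif k.2 then T k.1 (s k.1) else ∅, fun j => (s j).1, fun j => e j (s j),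
    ⟨fun j => (h1 j).1, antitone_nat_of_succ_le fun j => ?_, h2,
      squeeze_zero (fun j => (h1 j).1.le) (fun j => (h1 j).2)
        (tendsto_pow_atTop_nhds_zero_of_lt_one (by norm_num) (by norm_num))⟩,
    s1, fun _ => rfl, fun j => ?_⟩
  · rw [s1]; linarith [(h3 j).er, (h3 j).e0]
  · rw [h4]; exact h3 j

section main
variable {p : ℕ → ℝ≥0∞} {G : ℕ → ℝ} {n : ℕ × Bool → ℕ} {T : ℕ × Bool → Finset Γ} {r e : ℕ → ℝ}

theorem upper (hσ : IsSofic d σ) (hr : Rad r) (h1 : ∀ j, r (j + 1) = e j / 2)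
    (h2 : ∀ j, T (j, false) = ∅) (h : ∀ j, St σ j (p j) (G j) (r j)
      (PP n j) (e j) (n (j, false)) (n (j, true)) (T (j, true))) {q : ℝ≥0∞} (hq : 1 ≤ q) {x a : ℝ}
    (hx : x < a) (hj : ∃ᶠ j in atTop, p j = q ∧ G j ≤ x) :
    mdim d σ q (rh T r : XX Γ n × XX Γ n → ℝ) ≤ a := by
  refine gdim_le hσ.1 fun b hb => ?_
  obtain ⟨j, ⟨rfl, g1⟩, g2, g3⟩ := (hj.and_eventually ((hr.lim.eventually (gt_mem_nhds hb)).and
    (tendsto_natCast_atTop_atTop.eventually_ge_atTop (1 / (a - x))))).exists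
  obtain ⟨F, δ, hδ, hB⟩ := up_stage (n := n) hσ hr j hq (h1 j) (h2 j) (h j).top (h j).up
  refine ⟨e j, (h j).e0, (h j).er.trans_lt g2, F, δ, hδ, hB.mono
    (Eventually.of_forall fun _ => le_rfl) (fun _ _ _ _ h => h) ?_ hσ.1⟩
  have hP : 0 < PP n j := Finset.prod_pos fun _ _ => by positivity
  rw [Real.log_mul (by positivity) (by positivity)]
  have l0 := logi_nonneg (h j).e0 ((h j).er.trans (hr.one j))
  have l1 := mul_nonneg (Nat.cast_nonneg j) (logi_nonneg (hr.pos j) (hr.one j))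
  have l2 := log2j j
  have l3 := Real.log_natCast_nonneg (PP n j)
  have l4 : 0 ≤ Real.log 64 := Real.log_nonneg (by norm_num)
  have l5 : (j + 1) * (Real.log (PP n j) + 1) ≤ Real.log (1 / e j) :=
    le_trans (mul_le_mul_of_nonneg_left (by linarith) (by positivity)) (h j).big
  rw [div_le_iff₀ (sub_pos.2 hx)] at g3
  have l6 : Real.log (PP n j) + 1 ≤ (a - x) * Real.log (1 / e j) := by
    nlinarith [mul_le_mul_of_nonneg_left l5 (sub_pos.2 hx).le]
  nlinarith [(h j).n2, mul_le_mul_of_nonneg_right g1 l0]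

theorem find_j {θ : ℕ → ℝ} (h : Tendsto θ atTop (𝓝 0)) {ε : ℝ} (h0 : 0 < ε) {J : ℕ}
    (hJ : ε ≤ θ J) : ∃ j, J ≤ j ∧ θ (j + 1) < ε ∧ ε ≤ θ j := by
  by_contra hc
  push Not at hc
  have : ∀ j, J ≤ j → ε ≤ θ j := fun j hj => by
    induction j, hj using Nat.le_induction with
    | base => exact hJ
    | succ j hj ih => exact not_lt.1 fun h => absurd (hc j hj h) (not_lt.2 ih)
  obtain ⟨j, h1, h2⟩ := ((eventually_ge_atTop J).and (h.eventually (gt_mem_nhds h0))).exists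
  exact absurd (this j h1) (not_le.2 h2)

theorem arith {a a' η l Y Z c : ℝ} (h0 : 0 ≤ η) (h1 : η ≤ 1 / 2) (hl : 0 ≤ l) (hY : 0 ≤ Y)
    (hZ : Y ≤ Z) (h2 : a' * l ≤ (1 + η) * Y) (h3 : 2 * η * a' ≤ (a' - a) / 2)
    (h4 : c ≤ (a' - a) / 2 * l) : a * l + c + η * Z ≤ 1 * Z := by
  nlinarith [mul_le_mul_of_nonneg_left h2 (show 0 ≤ 1 - 2 * η by linarith),
    mul_le_mul_of_nonneg_right h3 hl, mul_le_mul_of_nonneg_left hZ (show 0 ≤ 1 - η by linarith),
    mul_nonneg (mul_nonneg h0 h0) hY]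

theorem lower (hσ : IsSofic d σ) (hr : Rad r) (h1 : ∀ j, r (j + 1) = e j / 2)
    (h2 : ∀ j, T (j, false) = ∅) (h : ∀ j, St σ j (p j) (G j) (r j)
      (PP n j) (e j) (n (j, false)) (n (j, true)) (T (j, true))) (hp : ∀ j, 1 ≤ p j)
    (hG : ∀ j, 0 ≤ G j) {q : ℝ≥0∞} (hq : 1 ≤ q) {a a' : ℝ} (ha : a < a') (ha' : 0 ≤ a')
    (hj : ∀ᶠ j in atTop, (q ≤ p j → a' ≤ G j) ∧
      (p j < q → q ≠ ⊤ → (p j).toReal * a' ≤ q.toReal * G j)) :
    (a : EReal) ≤ mdim d σ q (rh T r : XX Γ n × XX Γ n → ℝ) := by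
  have hq0 : q ≠ 0 := (zero_lt_one.trans_le hq).ne'
  have haa : 0 < a' - a := sub_pos.2 ha
  have tN := tendsto_natCast_atTop_atTop (R := ℝ)
  obtain ⟨J, hJ⟩ := eventually_atTop.1 (hj.and ((tN.eventually_ge_atTop a).and
    ((tN.eventually_ge_atTop q.toReal).and ((tN.eventually_ge_atTop 1).and
    ((tN.eventually_ge_atTop (4 * a' / (a' - a))).and
    ((Real.tendsto_log_atTop.comp (tendsto_atTop_add_const_right _ 1 tN)).eventually_ge_atTop
      (Real.log 2 / ((a' - a) / 2))))))))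
  have hθ : Tendsto (fun j : ℕ => r j / (j + 1)) atTop (𝓝 0) :=
    squeeze_zero (fun j => div_nonneg (hr.pos j).le (by positivity))
      (fun j => div_le_self (hr.pos j).le (by linarith [Nat.cast_nonneg (α := ℝ) j])) hr.lim
  refine le_gdim hσ.1 ?_
  filter_upwards [ev_small (div_pos (hr.pos J) (show (0 : ℝ) < J + 1 by positivity))] with ε hε
  obtain ⟨j, hJj, f1, f2⟩ := find_j hθ hε.1 hε.2.le
  obtain ⟨⟨k1, k2⟩, k3, k4, k5, k6, k7⟩ := hJ j hJj
  have ε0 := hε.1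
  have e0 := (h j).e0
  have r0 := hr.pos j
  have j0 : (0 : ℝ) < j + 1 := by positivity
  have εr : ε ≤ r j := f2.trans (div_le_self r0.le (by linarith))
  have l0 := logi_nonneg e0 ((h j).er.trans (hr.one j))
  have l1 := logi_nonneg r0 (hr.one j)
  have l2 := log2j j
  have l3 := Real.log_natCast_nonneg (PP n j)
  have l4 : 0 ≤ Real.log 64 := Real.log_nonneg (by norm_num)
  have l5 := logi_nonneg ε0 (εr.trans (hr.one j))
  have l6 : Real.log (j + 1) ≤ Real.log (1 / ε) := by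
    refine Real.log_le_log j0 ?_
    rw [le_div_iff₀ j0] at f2
    rw [le_div_iff₀ ε0]; linarith [hr.one j]
  have l7 : Real.log (1 / ε) ≤ Real.log (1 / e j) + Real.log (2 * (j + 2)) := by
    rw [← Real.log_mul (by positivity) (by positivity)]
    refine Real.log_le_log (by positivity) ?_
    rw [h1, div_lt_iff₀ (by positivity)] at f1
    push_cast at f1
    rw [one_div_mul_eq_div, div_le_div_iff₀ ε0 e0]; linarith
  have l8 := (h j).big
  rw [← le_div_iff₀' j0, div_eq_inv_mul (Real.log (1 / e j))] at l8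
  by_cases hv : p j ≠ ⊤ ∧ (q ≠ ⊤ → ε ^ q.toReal ≤ e j ^ (p j).toReal / 64 * r j ^ q.toReal)
  · refine lo_atom hσ hr (j, true) (h j).t1 ((h j).lo hv.1) hq0 ε0.le (by positivity) εr hv.2 ?_
    nlinarith [(h j).m1 hv.1, mul_le_mul_of_nonneg_right k3 l5,
      mul_le_mul_of_nonneg_left l7 (Nat.cast_nonneg (α := ℝ) j)]
  have η0 : (0 : ℝ) < (j + 1 : ℝ)⁻¹ := by positivity
  have η1 : (j + 1 : ℝ)⁻¹ ≤ 1 / 2 := by rw [one_div]; exact inv_anti₀ two_pos (by linarith)
  refine lo_atom hσ hr (j, false) (by simp [h2]) (α := 1) (h2 j ▸ dlo_empty le_rfl) hq0 ε0.le η0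
    εr (fun hq' => ?_) (arith η0.le η1 l5 (mul_nonneg (hG j) l0) (h j).n1 (a' := a') ?_ ?_ ?_)
  · rw [div_eq_inv_mul] at f2
    refine (Real.rpow_le_rpow ε0.le f2 ENNReal.toReal_nonneg).trans ?_
    rw [Real.mul_rpow η0.le r0.le]
    refine mul_le_mul_of_nonneg_right ?_ (by positivity)
    simpa using Real.rpow_le_rpow_of_exponent_ge η0 (by linarith) (ENNReal.toReal_mono hq' hq)
  · have l9 := mul_nonneg (Nat.cast_nonneg (α := ℝ) j) l1
    rcases le_or_gt q (p j) with hc | hc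
    · have : Real.log (1 / ε) ≤ (1 + (j + 1 : ℝ)⁻¹) * Real.log (1 / e j) := by linarith
      calc _ ≤ G j * ((1 + (j + 1 : ℝ)⁻¹) * Real.log (1 / e j)) :=
            mul_le_mul (k1 hc) this l5 (hG j)
        _ = _ := by ring
    · push Not at hv
      obtain ⟨hq', hv⟩ := hv hc.ne_top
      have q0 : 0 < q.toReal := ENNReal.toReal_pos hq0 hq'
      have p1 : 1 ≤ (p j).toReal := by simpa using ENNReal.toReal_mono hc.ne_top (hp j)
      have m1 := Real.log_le_log (by positivity) hv.le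
      rw [Real.log_mul (by positivity) (by positivity), Real.log_div (by positivity) (by norm_num),
        Real.log_rpow ε0, Real.log_rpow e0, Real.log_rpow r0] at m1
      have m2 : q.toReal * Real.log (1 / ε) ≤
          (1 + (j + 1 : ℝ)⁻¹) * ((p j).toReal * Real.log (1 / e j)) := by
        have m3 := mul_le_mul_of_nonneg_right k4 l1
        have m4 := mul_le_mul_of_nonneg_right p1 (mul_nonneg η0.le l0)
        simp only [one_div, Real.log_inv] at *
        linarith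
      refine le_of_mul_le_mul_left ?_ q0
      nlinarith [mul_le_mul_of_nonneg_left m2 ha', mul_le_mul_of_nonneg_right (k2 hc hq')
        (mul_nonneg (by linarith : 0 ≤ 1 + (j + 1 : ℝ)⁻¹) l0)]
  · rw [div_le_iff₀ haa] at k6
    rw [mul_assoc, ← div_eq_inv_mul, ← mul_div_assoc, div_le_iff₀ j0]
    nlinarith
  · simp only [Function.comp_apply] at k7
    rw [div_le_iff₀' (half_pos haa)] at k7
    exact k7.trans (mul_le_mul_of_nonneg_left l6 (half_pos haa).le)

end main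

theorem ratio_real {g : ℝ≥0∞ → ℝ≥0∞} (h : AntitoneOn (fun p => g p / p) (Set.Ico 1 ⊤))
    {p q : ℝ≥0∞} (hp : 1 ≤ p) (hpq : p ≤ q) (hq : q ≠ ⊤) (hg : g p ≠ ⊤) :
    g q ≠ ⊤ ∧ p.toReal * (g q).toReal ≤ q.toReal * (g p).toReal := by
  have hp0 : p ≠ 0 := (zero_lt_one.trans_le hp).ne'
  have hp' : p ≠ ⊤ := ne_top_of_le_ne_top hq hpq
  have h1 : g q / q ≤ g p / p := h ⟨hp, hp'.lt_top⟩ ⟨hp.trans hpq, hq.lt_top⟩ hpq
  have h2 : g p / p ≠ ⊤ := ENNReal.div_ne_top hg hp0
  refine ⟨fun h3 => ?_, ?_⟩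
  · rw [h3, ENNReal.top_div_of_ne_top hq] at h1
    exact h2 (top_le_iff.1 h1)
  · have := ENNReal.toReal_mono h2 h1
    rw [ENNReal.toReal_div, ENNReal.toReal_div, div_le_div_iff₀
      (ENNReal.toReal_pos (zero_lt_one.trans_le (hp.trans hpq)).ne' hq)
      (ENNReal.toReal_pos hp0 hp')] at this
    linarith

theorem lt_real {u : ℝ≥0∞} {a : ℝ} (h : (u : EReal) < a) : u ≠ ⊤ ∧ u.toReal < a := by
  have h1 : u ≠ ⊤ := by rintro rfl; simp at h
  refine ⟨h1, ?_⟩
  rwa [← EReal.coe_ennreal_toReal h1, EReal.coe_lt_coe_iff] at h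

theorem suff [Infinite Γ] (hσ : IsSofic d σ) {g : ℝ≥0∞ → ℝ≥0∞} (hm : MonotoneOn g (Set.Ici 1))
    (ha : AntitoneOn (fun p => g p / p) (Set.Ico 1 ⊤)) :
    ∃ (n : ℕ × Bool → ℕ) (T : ℕ × Bool → Finset Γ) (r : ℕ → ℝ), Rad r ∧
      ∀ q, 1 ≤ q → mdim d σ q (rh T r : XX Γ n × XX Γ n → ℝ) = g q := by
  obtain ⟨f, hf⟩ := exists_surjective_nat (Option ℚ)
  set P : Option ℚ → ℝ≥0∞ := fun o => o.elim ⊤ fun t => max 1 (ENNReal.ofReal t) with hP
  set p : ℕ → ℝ≥0∞ := fun j => P (f (Nat.unpair j).1) with hp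
  have hp1 : ∀ j, 1 ≤ p j := fun j => by
    simp only [hp, hP]
    cases f (Nat.unpair j).1 <;> simp
  have hfr : ∀ o, ∃ᶠ j in atTop, p j = P o := fun o => frequently_atTop.2 fun b => by
    obtain ⟨k, rfl⟩ := hf o
    exact ⟨Nat.pair k b, Nat.right_le_pair _ _, by simp [hp]⟩
  have hG : ∀ j : ℕ, 0 ≤ (min (g (p j)) j).toReal := fun _ => ENNReal.toReal_nonneg
  obtain ⟨n, T, r, e, hr, h1, h2, h⟩ := construct hσ p _ hG
  have U : ∀ o (a : ℝ), 1 ≤ P o → g (P o) ≠ ⊤ → (g (P o)).toReal < a →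
      mdim d σ (P o) (rh T r : XX Γ n × XX Γ n → ℝ) ≤ a := fun o a k0 k1 k2 =>
    upper hσ hr h1 h2 h k0 k2 ((hfr o).mono fun j hj =>
      ⟨hj, ENNReal.toReal_mono k1 (hj ▸ min_le_left _ _)⟩)
  refine ⟨n, T, r, hr, fun q hq => le_antisymm (ereal_le_of_forall fun a k => ?_)
    (ereal_le_of_forall' fun a k => ?_)⟩
  · obtain ⟨k1, k2⟩ := lt_real k
    by_cases hq' : q = ⊤
    · subst hq'
      exact U none a le_top k1 k2
    have y1 : 1 ≤ q.toReal := by simpa using ENNReal.toReal_mono hq' hq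
    have x0 : 0 ≤ (g q).toReal := ENNReal.toReal_nonneg
    have w0 : 0 < (a - (g q).toReal) * q.toReal := mul_pos (sub_pos.2 k2) (by linarith)
    obtain ⟨t, t1, t2⟩ := exists_rat_btwn (show q.toReal <
      q.toReal + (a - (g q).toReal) * q.toReal / ((g q).toReal + 1) from
      lt_add_of_pos_right _ (by positivity))
    have t3 : q ≤ ENNReal.ofReal t := (ENNReal.le_ofReal_iff_toReal_le hq' (by linarith)).2 t1.le
    have t4 : P (some t) = ENNReal.ofReal t := max_eq_right (hq.trans t3)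
    obtain ⟨t5, t6⟩ := ratio_real ha hq t3 ENNReal.ofReal_ne_top k1
    rw [ENNReal.toReal_ofReal (by linarith)] at t6
    refine (mdim_mono hσ.1 (rho n T hr) (zero_lt_one.trans_le hq).ne' t3).trans ?_
    rw [← t4] at t5 t6 ⊢
    refine U _ a (t4 ▸ hq.trans t3) t5 (lt_of_mul_lt_mul_left (a := q.toReal) ?_ (by linarith))
    rw [← sub_lt_iff_lt_add', lt_div_iff₀ (by positivity)] at t2
    nlinarith
  · obtain ⟨b, b1, b2⟩ := EReal.lt_iff_exists_real_btwn.1 k
    have b3 : ENNReal.ofReal (max b 0) ≤ g q := by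
      rw [ENNReal.ofReal_max, ENNReal.ofReal_zero, max_eq_left zero_le,
        ← EReal.coe_ennreal_le_coe_ennreal_iff, EReal.coe_ennreal_ofReal]
      exact_mod_cast max_le b2.le (EReal.coe_ennreal_nonneg _)
    refine lower hσ hr h1 h2 h hp1 hG hq (a' := max b 0)
      (lt_max_of_lt_left (by exact_mod_cast b1)) (le_max_right _ _) ?_
    filter_upwards [tendsto_natCast_atTop_atTop.eventually_ge_atTop (max b 0)] with j hj
    have b4 : min (g (p j)) j ≠ ⊤ := ne_top_of_le_ne_top (by simp) (min_le_right _ _)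
    refine ⟨fun hc => (ENNReal.ofReal_le_iff_le_toReal b4).1 (le_min (b3.trans (hm hq (hp1 j) hc))
      (ENNReal.ofReal_le_of_le_toReal (by simpa using hj))), fun hc hq' => ?_⟩
    rcases le_total (g (p j)) j with hc2 | hc2
    · rw [min_eq_left hc2] at b4 ⊢
      obtain ⟨b5, b6⟩ := ratio_real ha (hp1 j) hc.le hq' b4
      exact (mul_le_mul_of_nonneg_left ((ENNReal.ofReal_le_iff_le_toReal b5).1 b3)
        ENNReal.toReal_nonneg).trans b6
    · rw [min_eq_right hc2, ENNReal.toReal_natCast]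
      exact mul_le_mul (ENNReal.toReal_mono hq' hc.le) hj (le_max_right _ _) ENNReal.toReal_nonneg

theorem nec {X : Type} [TopologicalSpace X] [CompactSpace X] [MulAction Γ X]
    (hd : Tendsto d atTop atTop) (ρ : PM X) {g : ℝ≥0∞ → ℝ≥0∞}
    (h : ∀ q, 1 ≤ q → mdim d σ q ρ.1 = g q) :
    MonotoneOn g (Set.Ici 1) ∧ AntitoneOn (fun p => g p / p) (Set.Ico 1 ⊤) := by
  refine ⟨fun p hp q hq hpq => ?_, fun p hp q hq hpq => ?_⟩
  · rw [← EReal.coe_ennreal_le_coe_ennreal_iff, ← h p hp, ← h q hq]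
    exact mdim_mono hd ρ (zero_lt_one.trans_le hp).ne' hpq
  have hp0 : p ≠ 0 := (zero_lt_one.trans_le hp.1).ne'
  have hq0 : q ≠ 0 := (zero_lt_one.trans_le hq.1).ne'
  have p0 := ENNReal.toReal_pos hp0 hp.2.ne
  have q0 := ENNReal.toReal_pos hq0 hq.2.ne
  change g q / q ≤ g p / p
  by_cases hg : g p = ⊤
  · rw [hg, ENNReal.top_div_of_ne_top hp.2.ne]; exact le_top
  have k : (g q : EReal) ≤ ((g p).toReal * q.toReal / p.toReal : ℝ) := by
    refine ereal_le_of_forall fun a' k => ?_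
    rw [EReal.coe_lt_coe_iff, div_lt_iff₀ p0, ← lt_div_iff₀ q0] at k
    obtain ⟨a, k1, k2⟩ := exists_between k
    rw [← h q hq.1]
    refine mdim_ratio hd ρ hp0 hpq hq.2.ne (a := a) ?_ ?_
    · rw [h p hp.1, ← EReal.coe_ennreal_toReal hg]; exact_mod_cast k1
    · rwa [div_lt_iff₀ p0, ← lt_div_iff₀ q0]
  have hg' : g q ≠ ⊤ := by
    intro h'; rw [h'] at k; simp at k
  rw [← EReal.coe_ennreal_toReal hg', EReal.coe_le_coe_iff, le_div_iff₀ p0] at k
  rw [← ENNReal.toReal_le_toReal (ENNReal.div_ne_top hg' hq0) (ENNReal.div_ne_top hg hp0),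
    ENNReal.toReal_div, ENNReal.toReal_div, div_le_div_iff₀ q0 p0]
  exact k

end Pool.Agent.MP9d0111

end
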