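import Pool.Agent.Mg.F9d0111.G895a8a

namespace Pool.Agent.MP9d0111

open Filter Topology
open scoped ENNReal

section est
variable {Γ X : Type} [Group Γ] [MulAction Γ X] [TopologicalSpace X] {d : ℕ → ℕ}
  {σ : ∀ i, Γ → Equiv.Perm (Fin (d i))}

/-- finite-dimensional pseudometrics that are Lipschitz for a dynamical version of `ρ` -/
def FD (Γ : Type) [Group Γ] {X : Type} [MulAction Γ X] (ρ θ : X × X → ℝ) : Prop :=
  ∃ (ι : Type) (_ : Fintype ι) (G : X → ι → ℝ) (B K : ℝ) (F0 : Finset Γ), 0 < B ∧ 0 < K ∧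
    (∀ x i, 0 ≤ G x i ∧ G x i ≤ B) ∧ (∀ x y, θ (x, y) = dist (G x) (G y)) ∧
    ∀ x y t, 0 ≤ t → (∀ s ∈ F0, ρ (s • x, s • y) ≤ t) → θ (x, y) ≤ K * t

theorem main_est [DecidableEq Γ] (hd : Tendsto d atTop atTop) (ρ : PM X) {θ : X × X → ℝ}
    {ι : Type} [Fintype ι] {G : X → ι → ℝ} {B K : ℝ} {F0 : Finset Γ} (hB : 0 < B)
    (hG : ∀ x i, 0 ≤ G x i ∧ G x i ≤ B) (hθ : ∀ x y, θ (x, y) = dist (G x) (G y))
    (hK : ∀ x y t, 0 ≤ t → (∀ s ∈ F0, ρ.1 (s • x, s • y) ≤ t) → θ (x, y) ≤ K * t)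
    {p : ℝ≥0∞} (hp0 : p ≠ 0) (hp : p ≠ ⊤) {F : Finset Γ} {δ δ' e c t ε κ : ℝ}
    (h : Bd σ ρ.1 F δ (fun _ => rhoP ρ.1 p) e c) (he : 0 < e) (ht : 0 < t) (hε : 0 < ε)
    (hδ' : 0 ≤ δ') (hδ : δ' ≤ δ) (h1 : K * (3 * t) ≤ ε / 4) (h2 : (δ' / t) ^ 2 ≤ κ)
    (h3 : (e / t) ^ p.toReal ≤ κ) :
    Bd σ ρ.1 (F ∪ F0) δ' (fun _ => rhoP θ ⊤) ε
      (c + Real.log 2 + F0.card * (3 * κ) * (Fintype.card ι * Real.log (2 * B / ε + 1))) := by
  classical
  filter_upwards [h, hd.eventually_gt_atTop 0] with i hi hn T hT1 hT2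
  obtain ⟨S, hST, hS, hmax⟩ := exists_max_sep T (fun a b => e ≤ rhoP ρ.1 p a b)
    fun a b hab => by rwa [rhoP_symm ρ.2.2.1]
  have hSc := hi S (fun φ hφ s hs =>
    (hT1 (hST hφ) s (Finset.mem_union_left _ hs)).trans hδ) hS
  have hM1 : 1 ≤ 2 * B / ε + 1 := by
    have : 0 ≤ 2 * B / ε := by positivity
    linarith
  have hnr : (0 : ℝ) ≤ d i := Nat.cast_nonneg _
  have key := count_le (n := d i) T S (Fintype.piFinset fun _ : ι => Finset.Icc (0 : ℤ) ⌊2 * B / ε⌋)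
    (M := (2 * B / ε + 1) ^ Fintype.card ι) (k := F0.card * (3 * κ) * d i) (one_le_pow₀ hM1) ?_
    (fun a j i => ⌊G (a j) i / (ε / 2)⌋) (fun a b j => θ (a j, b j) ≤ ε / 4) ?_ ?_ ?_
  · refine key.trans ((mul_le_mul_of_nonneg_right hSc (by positivity)).trans (le_of_eq ?_))
    rw [exp_count _ _ (by positivity), Real.log_pow]
  · rw [Fintype.card_piFinset, Finset.prod_const, Finset.card_univ, Nat.cast_pow]
    refine pow_le_pow_left₀ (Nat.cast_nonneg _) ?_ _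
    have h0 : 0 ≤ ⌊2 * B / ε⌋ := Int.floor_nonneg.2 (by positivity)
    have : ((Finset.Icc (0 : ℤ) ⌊2 * B / ε⌋).card : ℤ) = ⌊2 * B / ε⌋ + 1 := by
      rw [Int.card_Icc, Int.toNat_of_nonneg (by omega)]; ring
    have h4 : ((Finset.Icc (0 : ℤ) ⌊2 * B / ε⌋).card : ℝ) = ⌊2 * B / ε⌋ + 1 := by
      exact_mod_cast this
    rw [h4]; linarith [Int.floor_le (2 * B / ε)]
  · intro a _ j
    rw [Fintype.mem_piFinset]
    intro l
    rw [Finset.mem_Icc]
    refine ⟨Int.floor_nonneg.2 (div_nonneg (hG _ _).1 (by positivity)), Int.floor_mono ?_⟩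
    rw [div_le_div_iff₀ (by positivity) hε]
    nlinarith [(hG (a j) l).2]
  · intro a ha
    obtain ⟨b, hb, hab⟩ := hmax a ha
    refine ⟨b, hb, ?_⟩
    rw [← cnt_eq]
    have hab' : rhoP ρ.1 p a b ≤ e := by
      rcases hab with rfl | hab
      · rw [rhoP_le_iff ρ.nonneg hp0 hp hn _ _ he.le]
        simp only [ρ.2.1, Real.zero_rpow (ENNReal.toReal_pos hp0 hp).ne', Finset.sum_const_zero]
        positivity
      · exact (not_le.1 hab).le
    refine (cnt_mono (Q := fun j => ∃ s ∈ F0,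
      (t ≤ ρ.1 (a (σ i s j), s • a j) ∨ t ≤ ρ.1 (b (σ i s j), s • b j)) ∨
        t ≤ ρ.1 (a (σ i s j), b (σ i s j))) fun j hj => ?_).trans ?_
    · by_contra hc
      push Not at hc
      refine hj ((hK _ _ (3 * t) (by positivity) fun s hs => ?_).trans h1)
      obtain ⟨⟨g1, g2⟩, g3⟩ := hc s hs
      rw [ρ.2.2.1] at g1
      linarith [ρ.2.2.2 (s • a j) (a (σ i s j)) (s • b j),
        ρ.2.2.2 (a (σ i s j)) (b (σ i s j)) (s • b j)]
    · rw [mul_assoc]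
      refine cnt_ex _ _ fun s hs => ?_
      have g1 := map_bad ρ.nonneg hn hδ' ht (hT1 ha) (Finset.mem_union_right _ hs)
      have g2 := map_bad ρ.nonneg hn hδ' ht (hT1 (hST hb)) (Finset.mem_union_right _ hs)
      have g3 := cheb' ρ.nonneg hp0 hp hn he.le ht hab'
      rw [← cnt_comp (σ i s)] at g3
      refine (cnt_or_le (cnt_or_le g1 g2) g3).trans ?_
      nlinarith [mul_le_mul_of_nonneg_right h2 hnr, mul_le_mul_of_nonneg_right h3 hnr]
  · intro a ha a' ha' b _ hj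
    by_contra hne
    have g1 : ε ≤ rhoP θ ⊤ a a' := hT2 ha ha' hne
    have g2 : rhoP θ ⊤ a a' ≤ ε / 2 := by
      refine rhoP_top_le (by positivity) fun j => ?_
      rcases hj j with ⟨g3, g4⟩ | g3
      · rw [hθ] at g3 g4 ⊢
        linarith [dist_triangle_right (G (a j)) (G (a' j)) (G (b j))]
      · rw [hθ, dist_pi_le_iff (by positivity)]
        intro l
        have := Int.abs_sub_lt_one_of_floor_eq_floor (congrFun g3 l)
        rw [← sub_div, abs_div, abs_of_pos (half_pos hε), div_lt_one (half_pos hε)] at this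
        exact this.le
    linarith

/-- the scale change -/
theorem fd_bd (hd : Tendsto d atTop atTop) (ρ : PM X) {θ : X × X → ℝ} (hθ : FD Γ ρ.1 θ)
    {p : ℝ≥0∞} (hp0 : p ≠ 0) (hp : p ≠ ⊤) {a : ℝ} (ha : mdim d σ p ρ.1 < a) {b : ℝ}
    (hb : 0 < b) : ∃ ε, 0 < ε ∧ ε < b ∧ ∃ F δ, 0 < δ ∧
      Bd σ ρ.1 F δ (fun _ => rhoP θ ⊤) ε (a * Real.log (1 / (2 * ε))) := by
  classical
  obtain ⟨ι, _, G, B, K, F0, hB, hK0, hG, hθ, hK⟩ := hθ
  obtain ⟨a', ha1, ha2⟩ := EReal.lt_iff_exists_real_btwn.1 ha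
  have ha3 : 0 < a - a' := sub_pos.2 (by exact_mod_cast ha2)
  have hq : 0 < p.toReal := ENNReal.toReal_pos hp0 hp
  obtain ⟨κ, hκ, hκ2⟩ : ∃ κ : ℝ, 0 < κ ∧
      F0.card * (3 * κ) * (Fintype.card ι * 2) ≤ (a - a') / 2 := by
    refine ⟨(a - a') / (2 * (F0.card * 3 * (Fintype.card ι * 2) + 1)), by positivity, ?_⟩
    have : (F0.card : ℝ) * (3 * ((a - a') / (2 * (F0.card * 3 * (Fintype.card ι * 2) + 1)))) *
        (Fintype.card ι * 2) = (a - a') / 2 * ((F0.card * 3 * (Fintype.card ι * 2)) /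
          (F0.card * 3 * (Fintype.card ι * 2) + 1)) := by field_simp
    rw [this]
    refine mul_le_of_le_one_right (by positivity) ?_
    rw [div_le_one (by positivity)]; linarith
  set u : ℝ := κ ^ (p.toReal)⁻¹ with hu
  have hu0 : 0 < u := Real.rpow_pos_of_pos hκ _
  set R : ℝ := 12 * K / u with hR
  have hR0 : 0 < R := by positivity
  have hT : Tendsto (fun e : ℝ => R * e) (𝓝[>] 0) (𝓝[>] 0) := by
    refine tendsto_nhdsWithin_iff.2 ⟨?_, ?_⟩
    · have : Tendsto (fun e : ℝ => R * e) (𝓝 0) (𝓝 (R * 0)) :=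
        (continuous_const.mul continuous_id).tendsto 0
      rw [mul_zero] at this
      exact this.mono_left nhdsWithin_le_nhds
    · filter_upwards [self_mem_nhdsWithin] with e he using mul_pos hR0 he
  have hL : Tendsto (fun ε : ℝ => Real.log (1 / ε)) (𝓝[>] 0) atTop := by
    simp only [one_div]
    exact Real.tendsto_log_atTop.comp tendsto_inv_nhdsGT_zero
  obtain ⟨e, ⟨he, -, F, δ, hδ, hBd⟩, ⟨hε, hεb⟩, ⟨-, hε1⟩, g1, g2⟩ :=
    ((of_gdim_lt hd ha1).and_eventually ((hT.eventually (ev_small hb)).and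
      ((hT.eventually (ev_small one_pos)).and
      (((hL.comp hT).eventually_ge_atTop (Real.log (2 * B + 1))).and
      ((hL.comp hT).eventually_ge_atTop
        ((a' * Real.log R + Real.log 2 + a * Real.log 2) / ((a - a') / 2))))))).exists
  simp only [Function.comp_apply] at g1 g2
  have ht : 0 < e / u := by positivity
  refine ⟨R * e, hε, hεb, F ∪ F0, min δ (e / u * √κ), by positivity, ?_⟩
  refine (main_est hd ρ hB hG hθ hK hp0 hp (κ := κ) hBd he ht hε (by positivity)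
    (min_le_left _ _) ?_ ?_ ?_).mono (Eventually.of_forall fun _ => le_rfl)
    (fun _ _ _ _ h => h) ?_ hd
  · rw [hR]; apply le_of_eq; field_simp; norm_num
  · refine le_of_le_of_eq (pow_le_pow_left₀ (by positivity) (b := √κ) ?_ 2) (Real.sq_sqrt hκ.le)
    rw [div_le_iff₀' ht]; exact min_le_right _ _
  · have : e / (e / u) = u := by field_simp
    rw [this, hu, Real.rpow_inv_rpow hκ.le hq.ne']
  · set L := Real.log (1 / (R * e)) with hLd
    have e1 : Real.log (1 / e) = L + Real.log R := by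
      rw [hLd, ← Real.log_mul (by positivity) hR0.ne']; congr 1; field_simp
    have e2 : Real.log (1 / (2 * (R * e))) = L - Real.log 2 := by
      rw [hLd, ← Real.log_div (by positivity) two_ne_zero]; congr 1; field_simp
    have e3 : Real.log (2 * B / (R * e) + 1) ≤ 2 * L := by
      have : Real.log (2 * B / (R * e) + 1) ≤ Real.log ((2 * B + 1) * (1 / (R * e))) := by
        refine Real.log_le_log (by positivity) ?_
        rw [add_mul, mul_one_div, one_mul, add_le_add_iff_left, le_div_iff₀ hε]; linarith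
      rw [Real.log_mul (by positivity) (by positivity)] at this
      linarith
    have hL0 : 0 ≤ L := (logpos hε hε1).le
    rw [div_le_iff₀ (half_pos ha3)] at g2
    have e4 : (F0.card : ℝ) * (3 * κ) * (Fintype.card ι * Real.log (2 * B / (R * e) + 1)) ≤
        (a - a') / 2 * L :=
      calc _ ≤ (F0.card : ℝ) * (3 * κ) * (Fintype.card ι * (2 * L)) := by gcongr
        _ = F0.card * (3 * κ) * (Fintype.card ι * 2) * L := by ring
        _ ≤ _ := mul_le_mul_of_nonneg_right hκ2 hL0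
    rw [e1, e2]
    nlinarith

end est

section dens
variable {Γ X : Type} [Group Γ] [MulAction Γ X] [TopologicalSpace X] [CompactSpace X]
  [ContinuousConstSMul Γ X]

theorem pm_dist_le {θ θ' : PM X} {r : ℝ} (hr : 0 ≤ r)
    (h : ∀ x y, |θ.1 (x, y) - θ'.1 (x, y)| ≤ r) : dist θ θ' ≤ r := by
  rw [Subtype.dist_eq, ContinuousMap.dist_le hr]
  exact fun z => h z.1 z.2

theorem pm_abs_le (θ θ' : PM X) (z : X × X) : |θ.1 z - θ'.1 z| ≤ dist θ θ' := by
  rw [Subtype.dist_eq, ← Real.dist_eq]; exact ContinuousMap.dist_apply_le_dist z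

theorem fd_dense (ρ θ1 : PM X) (hρ : DynGen Γ ρ.1) {η : ℝ} (hη : 0 < η) :
    ∃ θ0 : PM X, dist θ0 θ1 ≤ 3 * η ∧ FD Γ ρ.1 θ0.1 := by
  classical
  obtain ⟨D, hD0, hD⟩ := θ1.bdd
  obtain ⟨F0, η', hη', hF0⟩ := exists_F0 ρ θ1 hρ hη
  obtain ⟨Z, hZ⟩ := isCompact_univ.elim_finite_subcover
    (fun z : X => {y : X | θ1.1 (y, z) < η})
    (fun z => isOpen_lt (by fun_prop) continuous_const)
    fun y _ => Set.mem_iUnion.2 ⟨y, by simpa [θ1.2.1] using hη⟩
  set r : X → X → ℝ := fun x y => D / η' * ∑ s ∈ F0, ρ.1 (s • x, s • y) with hr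
  have hK : 0 < D / η' := by positivity
  have r0 : ∀ x y, 0 ≤ r x y := fun x y =>
    mul_nonneg hK.le (Finset.sum_nonneg fun _ _ => ρ.nonneg _)
  have r1 : ∀ x, r x x = 0 := fun x => by simp [hr, ρ.2.1]
  have r2 : ∀ x y, r x y = r y x := fun x y => by simp only [hr, ρ.2.2.1 (_ • x)]
  have r3 : ∀ x y z, r x z ≤ r x y + r y z := fun x y z => by
    simp only [hr]
    rw [← mul_add, ← Finset.sum_add_distrib]
    exact mul_le_mul_of_nonneg_left (Finset.sum_le_sum fun s _ => ρ.2.2.2 _ _ _) hK.le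
  have r4 : ∀ x y, θ1.1 (x, y) < η ∨ D ≤ r x y := fun x y => by
    by_cases h : ∀ s ∈ F0, ρ.1 (s • x, s • y) < η'
    · exact Or.inl (hF0 x y h)
    · push Not at h
      obtain ⟨s, hs, h⟩ := h
      have : ρ.1 (s • x, s • y) ≤ ∑ s ∈ F0, ρ.1 (s • x, s • y) :=
        Finset.single_le_sum (f := fun s => ρ.1 (s • x, s • y)) (fun _ _ => ρ.nonneg _) hs
      right
      calc D = D / η' * η' := by field_simp
        _ ≤ _ := mul_le_mul_of_nonneg_left (h.trans this) hK.le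
  set G : X → Z → ℝ := fun x z => ⨅ y, (θ1.1 (y, z) + r x y) with hG
  have bb : ∀ x (z : Z), BddBelow (Set.range fun y => θ1.1 (y, z) + r x y) := fun x z =>
    ⟨0, by rintro _ ⟨y, rfl⟩; exact add_nonneg (θ1.nonneg _) (r0 _ _)⟩
  have g1 : ∀ x z, G x z ≤ θ1.1 (x, z) := fun x z => by
    simpa [r1] using ciInf_le (bb x z) x
  have g0 : ∀ x z, 0 ≤ G x z := fun x z =>
    Real.iInf_nonneg fun y => add_nonneg (θ1.nonneg _) (r0 _ _)
  have g2 : ∀ x (z : Z), θ1.1 (x, z) - η ≤ G x z := fun x z => by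
    have : Nonempty X := ⟨x⟩
    refine le_ciInf fun y => ?_
    rcases r4 x y with h | h
    · linarith [θ1.2.2.2 x y z, r0 x y]
    · linarith [hD (x, z), θ1.nonneg (y, z)]
  have g3 : ∀ x x' z, G x z - G x' z ≤ r x x' := fun x x' z => by
    have : Nonempty X := ⟨x⟩
    have : G x z - r x x' ≤ G x' z := le_ciInf fun y => by
      linarith [ciInf_le (bb x z) y, r3 x x' y]
    linarith
  have g4 : ∀ x x', dist (G x) (G x') ≤ r x x' := fun x x' => by
    rw [dist_pi_le_iff (r0 _ _)]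
    intro z
    rw [Real.dist_eq, abs_sub_le_iff]
    exact ⟨g3 _ _ _, r2 x x' ▸ g3 _ _ _⟩
  have gc : Continuous G := by
    refine continuous_iff_continuousAt.2 fun x => ?_
    rw [ContinuousAt, tendsto_iff_dist_tendsto_zero]
    refine squeeze_zero (fun _ => dist_nonneg) (fun x' => g4 x' x) ?_
    rw [← r1 x]
    have : Continuous fun x' => r x' x := by simp only [hr]; fun_prop
    exact this.tendsto x
  refine ⟨⟨⟨fun z => dist (G z.1) (G z.2), by fun_prop⟩, fun x => dist_self (G x),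
    fun x y => dist_comm (G x) (G y), fun x y z => dist_triangle (G x) (G y) (G z)⟩,
    pm_dist_le (by positivity) fun x y => ?_,
    Z, inferInstance, G, D, D / η' * (F0.card + 1), F0, hD0, by positivity,
    fun x z => ⟨g0 _ _, (g1 _ _).trans (hD _)⟩, fun _ _ => rfl, fun x y t ht h => ?_⟩
  · change |dist (G x) (G y) - θ1.1 (x, y)| ≤ _
    rw [abs_sub_le_iff]
    constructor
    · have : dist (G x) (G y) ≤ θ1.1 (x, y) + η := by
        rw [dist_pi_le_iff (add_nonneg (θ1.nonneg _) hη.le)]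
        intro z
        rw [Real.dist_eq, abs_sub_le_iff]
        constructor
        · linarith [g1 x z, g2 y z, θ1.2.2.2 x y z]
        · linarith [g1 y z, g2 x z, θ1.2.2.2 y x z, θ1.2.2.1 x y]
      linarith
    · obtain ⟨z, hz, hyz⟩ := Set.mem_iUnion₂.1 (hZ (Set.mem_univ y))
      have h1 : θ1.1 (y, z) < η := hyz
      have h2 := dist_le_pi_dist (G x) (G y) ⟨z, hz⟩
      rw [Real.dist_eq] at h2
      have h3 := le_abs_self (G x ⟨z, hz⟩ - G y ⟨z, hz⟩)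
      have h4 := g1 y ⟨z, hz⟩
      have h5 := g2 x ⟨z, hz⟩
      have h6 := θ1.2.2.2 x z y
      rw [θ1.2.2.1 z y] at h6
      simp only at h4 h5
      linarith
  · refine (g4 x y).trans ?_
    have : ∑ s ∈ F0, ρ.1 (s • x, s • y) ≤ F0.card * t := by
      simpa using Finset.sum_le_card_nsmul F0 _ t h
    rw [mul_assoc]
    exact mul_le_mul_of_nonneg_left (by nlinarith) hK.le

end dens

section baire
variable {Γ X : Type} [Group Γ] [MulAction Γ X] [MetricSpace X] [CompactSpace X]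
  [ContinuousConstSMul Γ X] {d : ℕ → ℕ} {σ : ∀ i, Γ → Equiv.Perm (Fin (d i))}

theorem pm_complete : CompleteSpace (PM X) := by
  have : IsClosed {ρ : C(X × X, ℝ) | (∀ x, ρ (x, x) = 0) ∧ (∀ x y, ρ (x, y) = ρ (y, x)) ∧
      ∀ x y z, ρ (x, z) ≤ ρ (x, y) + ρ (y, z)} := ?_
  · exact this.isComplete.completeSpace_coe
  simp only [Set.ofPred_and, Set.ofPred_forall]
  refine (isClosed_iInter fun x => isClosed_eq (by fun_prop) continuous_const).inter
    ((isClosed_iInter fun x => isClosed_iInter fun y => isClosed_eq (by fun_prop)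
      (by fun_prop)).inter (isClosed_iInter fun x => isClosed_iInter fun y =>
      isClosed_iInter fun z => isClosed_le (by fun_prop) (by fun_prop)))

def VV (X : Type) [MetricSpace X] (k : ℕ) : Set (PM X) :=
  {θ | ∃ η : ℝ, 0 < η ∧ ∀ x y, 1 / ((k : ℝ) + 1) ≤ dist x y → η ≤ θ.1 (x, y)}

theorem VV_open (k : ℕ) : IsOpen (VV X k) := by
  rw [Metric.isOpen_iff]
  rintro θ ⟨η, hη, h⟩
  refine ⟨η / 2, half_pos hη, fun θ' h' => ⟨η / 2, half_pos hη, fun x y hxy => ?_⟩⟩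
  have h1 := (abs_le.1 (pm_abs_le θ' θ (x, y))).1
  have h2 : dist θ' θ < η / 2 := h'
  linarith [h x y hxy]

theorem VV_dense (k : ℕ) : Dense (VV X k) := by
  rw [Metric.dense_iff]
  intro θ r hr
  obtain ⟨D, hD0, hD⟩ := PM.bdd (X := X) ⟨⟨fun z => dist z.1 z.2, by fun_prop⟩,
    fun x => dist_self _, fun x y => dist_comm _ _, fun x y z => dist_triangle _ _ _⟩
  have hc : 0 < r / (2 * D) := by positivity
  refine ⟨⟨⟨fun z => θ.1 z + r / (2 * D) * dist z.1 z.2, by fun_prop⟩, fun x => by simp [θ.2.1],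
    fun x y => by simp [θ.2.2.1 x, dist_comm], fun x y z => ?_⟩, ?_,
    r / (2 * D) * (1 / ((k : ℝ) + 1)), by positivity, fun x y hxy => ?_⟩
  · have := mul_le_mul_of_nonneg_left (dist_triangle x y z) hc.le
    simp only [ContinuousMap.coe_mk]
    linarith [θ.2.2.2 x y z]
  · refine (pm_dist_le (half_pos hr).le fun x y => ?_).trans_lt (half_lt_self hr)
    simp only [ContinuousMap.coe_mk, add_sub_cancel_left]
    rw [abs_of_nonneg (by positivity)]
    calc _ ≤ r / (2 * D) * D := mul_le_mul_of_nonneg_left (hD (x, y)) hc.le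
      _ = _ := by field_simp
  · have := mul_le_mul_of_nonneg_left hxy hc.le
    simp only [ContinuousMap.coe_mk]
    linarith [θ.nonneg (x, y)]

def UU (σ : ∀ i, Γ → Equiv.Perm (Fin (d i))) (X : Type) [MulAction Γ X] [MetricSpace X]
    [CompactSpace X] (a : ℝ) (k : ℕ) : Set (PM X) :=
  {θ | ∃ (θ0 ρ : PM X) (ε : ℝ) (F : Finset Γ) (δ : ℝ), 0 < ε ∧ ε < 1 / ((k : ℝ) + 1) ∧ 0 < δ ∧
    Bd σ ρ.1 F δ (fun _ => rhoP θ0.1 ⊤) ε (a * Real.log (1 / (2 * ε))) ∧ dist θ θ0 < ε}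

omit [ContinuousConstSMul Γ X] in
theorem UU_open (a : ℝ) (k : ℕ) : IsOpen (UU σ X a k) := by
  rw [isOpen_iff_mem_nhds]
  rintro θ ⟨θ0, ρ, ε, F, δ, h1, h2, h3, h4, h5⟩
  filter_upwards [Metric.isOpen_ball.mem_nhds (show θ ∈ Metric.ball θ0 ε from h5)] with θ' h'
  exact ⟨θ0, ρ, ε, F, δ, h1, h2, h3, h4, h'⟩

theorem UU_dense (hd : Tendsto d atTop atTop) (ρ : PM X) (hρ : DynGen Γ ρ.1) {p : ℝ≥0∞}
    (hp0 : p ≠ 0) (hp : p ≠ ⊤) {a : ℝ} (ha : mdim d σ p ρ.1 < a) (k : ℕ) :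
    Dense (UU σ X a k) := by
  rw [Metric.dense_iff]
  intro θ r hr
  obtain ⟨θ0, h1, h2⟩ := fd_dense ρ θ hρ (show 0 < r / 4 by positivity)
  obtain ⟨ε, h3, h4, F, δ, h5, h6⟩ := fd_bd hd ρ h2 hp0 hp ha
    (show 0 < 1 / ((k : ℝ) + 1) by positivity)
  exact ⟨θ0, show dist θ0 θ < r by linarith, θ0, ρ, ε, F, δ, h3, h4, h5, h6, by simpa using h3⟩

theorem mdim_le_of_UU (hσ : IsSofic d σ) (θ : PM X) (hθ : DynGen Γ θ.1) {a : ℝ}
    (h : ∀ k, θ ∈ UU σ X a k) : mdim d σ ⊤ θ.1 ≤ a := by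
  refine gdim_le hσ.1 fun b hb => ?_
  obtain ⟨k, hk⟩ := exists_nat_one_div_lt (half_pos hb)
  obtain ⟨θ0, ρ, ε, F, δ, h1, h2, h3, h4, h5⟩ := h k
  obtain ⟨F', δ', h6, h7⟩ := cofinal hσ θ ρ hθ F h3
  refine ⟨2 * ε, by positivity, by linarith, F', δ', h6,
    h4.mono h7 (fun n _ φ ψ hh => ?_) le_rfl hσ.1⟩
  have : rhoP θ.1 ⊤ φ ψ ≤ rhoP θ0.1 ⊤ φ ψ + ε :=
    rhoP_top_le (add_nonneg (rhoP_nonneg θ0.nonneg _ _ _) h1.le) fun j => by
      linarith [(abs_le.1 (pm_abs_le θ θ0 (φ j, ψ j))).2, le_rhoP_top (ρ := θ0.1) φ ψ j]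
  linarith

omit [CompactSpace X] [ContinuousConstSMul Γ X] in
theorem mdim_le_top (hd : Tendsto d atTop atTop) (ρ : PM X) {p : ℝ≥0∞} (hp0 : p ≠ 0) :
    mdim d σ p ρ.1 ≤ mdim d σ ⊤ ρ.1 :=
  gdim_mono hd fun _ hn a b => rhoP_le_top ρ.nonneg hp0 hn a b

theorem generic_main (hσ : IsSofic d σ) :
    ∃ G : Set (PM X), IsGδ G ∧ Dense G ∧ ∀ θ ∈ G, (∀ x y, θ.1 (x, y) = 0 → x = y) ∧
      ∀ p : ℝ≥0∞, 0 < p →
        mdim d σ p θ.1 = mdimM d σ p X ∧ mdim d σ p θ.1 = mdimM d σ ⊤ X := by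
  classical
  have := pm_complete (X := X)
  set C : ℚ → Prop := fun a => ∃ (p : ℝ≥0∞) (ρ : PM X), p ≠ 0 ∧ p ≠ ⊤ ∧ DynGen Γ ρ.1 ∧
    mdim d σ p ρ.1 < ((a : ℝ) : EReal) with hC
  set W : ℚ × ℕ → Set (PM X) := fun u =>
    VV X u.2 ∩ if C u.1 then UU σ X u.1 u.2 else Set.univ with hW
  have hWo : ∀ u, IsOpen (W u) := fun u => (VV_open _).inter (by
    split_ifs
    · exact UU_open _ _
    · exact isOpen_univ)
  have hWd : ∀ u, Dense (W u) := fun u => Dense.inter_of_isOpen_left (VV_dense _) (by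
    split_ifs with h
    · obtain ⟨p, ρ, h1, h2, h3, h4⟩ := h
      exact UU_dense hσ.1 ρ h3 h1 h2 h4 _
    · exact dense_univ) (VV_open _)
  refine ⟨⋂ u, W u, IsGδ.iInter_of_isOpen hWo, dense_iInter_of_isOpen hWo hWd, fun θ hθ => ?_⟩
  rw [Set.mem_iInter] at hθ
  have hm : ∀ x y, θ.1 (x, y) = 0 → x = y := fun x y h => by
    by_contra hne
    obtain ⟨k, hk⟩ := exists_nat_one_div_lt (dist_pos.2 hne)
    obtain ⟨η, hη, h2⟩ := (hθ (0, k)).1
    linarith [h2 x y hk.le]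
  have hg : DynGen Γ θ.1 := fun x y hxy => ⟨1, by
    rw [one_smul, one_smul]
    exact lt_of_le_of_ne (θ.nonneg _) fun h => hxy (hm x y h.symm)⟩
  have k1 : ∀ (p : ℝ≥0∞) (ρ : PM X), p ≠ 0 → p ≠ ⊤ → DynGen Γ ρ.1 →
      mdim d σ ⊤ θ.1 ≤ mdim d σ p ρ.1 := fun p ρ h1 h2 h3 => by
    by_contra hc
    obtain ⟨a, h4, h5⟩ := EReal.lt_iff_exists_rat_btwn.1 (not_le.1 hc)
    refine absurd (mdim_le_of_UU hσ θ hg fun k => ?_) (not_le.2 h5)
    have := (hθ (a, k)).2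
    rwa [if_pos ⟨p, ρ, h1, h2, h3, h4⟩] at this
  have k2 : ∀ p : ℝ≥0∞, p ≠ 0 → mdim d σ ⊤ θ.1 ≤ mdimM d σ p X := fun p hp =>
    le_iInf fun ρ => le_iInf fun hρ => by
      by_cases h : p = ⊤
      · rw [h]
        exact (k1 1 ρ one_ne_zero ENNReal.one_ne_top hρ).trans (mdim_le_top hσ.1 ρ one_ne_zero)
      · exact k1 p ρ hp h hρ
  have k3 : ∀ p : ℝ≥0∞, mdimM d σ p X ≤ mdim d σ p θ.1 := fun p =>
    iInf_le_of_le θ (iInf_le_of_le hg le_rfl)
  refine ⟨hm, fun p hp => ⟨le_antisymm ((mdim_le_top hσ.1 θ hp.ne').trans (k2 p hp.ne')) (k3 p),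
    le_antisymm ((mdim_le_top hσ.1 θ hp.ne').trans (k2 ⊤ ENNReal.top_ne_zero))
      ((k3 ⊤).trans ((k2 p hp.ne').trans (k3 p)))⟩⟩

end baire

end Pool.Agent.MP9d0111
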