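import Pool.Agent.MP_9d0111_an.Defs

section

namespace Pool.Agent.MP9d0111

open Filter Topology
open scoped ENNReal

section bridge
variable {Γ X : Type} [Group Γ] [MulAction Γ X] {d : ℕ → ℕ}
  {σ : ∀ i, Γ → Equiv.Perm (Fin (d i))}

/-- eventual upper bound for separated subsets of `Map(ρ,F,δ,σ i)` -/
def Bd (σ : ∀ i, Γ → Equiv.Perm (Fin (d i))) (ρ : X × X → ℝ) (F : Finset Γ) (δ : ℝ)
    (D : (n : ℕ) → (Fin n → X) → (Fin n → X) → ℝ) (ε c : ℝ) : Prop :=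
  ∀ᶠ i in atTop, ∀ S : Finset (Fin (d i) → X), (S : Set _) ⊆ MapSet ρ F δ (σ i) →
    (S : Set (Fin (d i) → X)).Pairwise (fun a b => ε ≤ D (d i) a b) →
    (S.card : ℝ) ≤ Real.exp (c * d i)

/-- frequent lower bound -/
def Lo (σ : ∀ i, Γ → Equiv.Perm (Fin (d i))) (ρ : X × X → ℝ)
    (D : (n : ℕ) → (Fin n → X) → (Fin n → X) → ℝ) (ε c : ℝ) : Prop :=
  ∀ (F : Finset Γ) (δ : ℝ), 0 < δ → ∃ᶠ i in atTop, ∃ S : Finset (Fin (d i) → X),
    (S : Set _) ⊆ MapSet ρ F δ (σ i) ∧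
    (S : Set (Fin (d i) → X)).Pairwise (fun a b => ε ≤ D (d i) a b) ∧
    Real.exp (c * d i) ≤ (S.card : ℝ)

noncomputable def inner (σ : ∀ i, Γ → Equiv.Perm (Fin (d i))) (ρ : X × X → ℝ)
    (D : (n : ℕ) → (Fin n → X) → (Fin n → X) → ℝ) (ε : ℝ) : EReal :=
  ⨅ (F : Finset Γ) (δ : ℝ) (_ : 0 < δ),
    limsup (fun i => ENNReal.log (sepNum ε (MapSet ρ F δ (σ i)) (D (d i))) /
      ((d i * Real.log (1 / ε) : ℝ) : EReal)) atTop

noncomputable def gdim (σ : ∀ i, Γ → Equiv.Perm (Fin (d i))) (ρ : X × X → ℝ)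
    (D : (n : ℕ) → (Fin n → X) → (Fin n → X) → ℝ) : EReal :=
  liminf (fun ε => inner σ ρ D ε) (𝓝[>] 0)

theorem mdim_eq (p : ℝ≥0∞) (ρ : X × X → ℝ) :
    mdim d σ p ρ = gdim σ ρ (fun _ => rhoP ρ p) := rfl

theorem logpos {ε : ℝ} (h0 : 0 < ε) (h1 : ε < 1) : 0 < Real.log (1 / ε) :=
  Real.log_pos (by rw [lt_div_iff₀ h0]; linarith)

theorem log_ofReal_exp (x : ℝ) : ENNReal.log (ENNReal.ofReal (Real.exp x)) = (x : EReal) := by
  rw [ENNReal.log_ofReal_of_pos (Real.exp_pos _), Real.log_exp]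

theorem card_le_sepNum {α : Type} {ε : ℝ} {Y : Set α} {θ : α → α → ℝ} (S : Finset α)
    (h1 : (S : Set α) ⊆ Y) (h2 : (S : Set α).Pairwise fun a b => ε ≤ θ a b) :
    (S.card : ℝ≥0∞) ≤ sepNum ε Y θ :=
  le_iSup_of_le S (le_iSup_of_le h1 (le_iSup_of_le h2 le_rfl))

theorem inner_le (hd : Tendsto d atTop atTop) {ρ : X × X → ℝ} {F : Finset Γ} {δ : ℝ}
    {D : (n : ℕ) → (Fin n → X) → (Fin n → X) → ℝ} {ε a : ℝ} (hδ : 0 < δ) (h0 : 0 < ε)
    (h1 : ε < 1) (h : Bd σ ρ F δ D ε (a * Real.log (1 / ε))) : inner σ ρ D ε ≤ a := by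
  refine iInf_le_of_le F (iInf_le_of_le δ (iInf_le_of_le hδ ?_))
  refine limsup_le_of_le (by isBoundedDefault) ?_
  filter_upwards [h, hd.eventually_ge_atTop 1] with i hi hi1
  have hL := logpos h0 h1
  have hdi : (0 : ℝ) < d i := by exact_mod_cast hi1
  rw [EReal.div_le_iff_le_mul (by exact_mod_cast mul_pos hdi hL) (EReal.coe_ne_top _),
    ← EReal.coe_mul, ← log_ofReal_exp]
  refine ENNReal.log_monotone ?_
  refine iSup_le fun S => iSup_le fun hS1 => iSup_le fun hS2 => ?_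
  have := hi S hS1 hS2
  rw [← ENNReal.ofReal_natCast]
  refine ENNReal.ofReal_le_ofReal (this.trans (le_of_eq ?_))
  congr 1; ring

theorem of_inner_lt (hd : Tendsto d atTop atTop) {ρ : X × X → ℝ}
    {D : (n : ℕ) → (Fin n → X) → (Fin n → X) → ℝ} {ε a : ℝ} (h0 : 0 < ε)
    (h1 : ε < 1) (h : inner σ ρ D ε < a) :
    ∃ F δ, 0 < δ ∧ Bd σ ρ F δ D ε (a * Real.log (1 / ε)) := by
  simp only [inner, iInf_lt_iff] at h
  obtain ⟨F, δ, hδ, h⟩ := h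
  refine ⟨F, δ, hδ, ?_⟩
  filter_upwards [eventually_lt_of_limsup_lt h, hd.eventually_ge_atTop 1] with i hi hi1 S hS1 hS2
  have hL := logpos h0 h1
  have hdi : (0 : ℝ) < d i := by exact_mod_cast hi1
  rw [EReal.div_lt_iff (by exact_mod_cast mul_pos hdi hL) (EReal.coe_ne_top _),
    ← EReal.coe_mul, ← log_ofReal_exp, ENNReal.log_lt_log_iff] at hi
  have h2 := (card_le_sepNum S hS1 hS2).trans hi.le
  rw [← ENNReal.ofReal_natCast, ENNReal.ofReal_le_ofReal_iff (Real.exp_pos _).le] at h2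
  refine h2.trans (le_of_eq ?_)
  congr 1; ring

theorem le_inner (hd : Tendsto d atTop atTop) {ρ : X × X → ℝ}
    {D : (n : ℕ) → (Fin n → X) → (Fin n → X) → ℝ} {ε a : ℝ} (h0 : 0 < ε)
    (h1 : ε < 1) (h : Lo σ ρ D ε (a * Real.log (1 / ε))) : (a : EReal) ≤ inner σ ρ D ε := by
  refine le_iInf fun F => le_iInf fun δ => le_iInf fun hδ => ?_
  refine le_limsup_of_frequently_le ?_
  refine ((h F δ hδ).and_eventually (hd.eventually_ge_atTop 1)).mono ?_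
  rintro i ⟨⟨S, hS1, hS2, hS3⟩, hi1⟩
  have hL := logpos h0 h1
  have hdi : (0 : ℝ) < d i := by exact_mod_cast hi1
  rw [EReal.le_div_iff_mul_le (by exact_mod_cast mul_pos hdi hL) (EReal.coe_ne_top _),
    ← EReal.coe_mul, ← log_ofReal_exp]
  refine ENNReal.log_monotone (le_trans ?_ (card_le_sepNum S hS1 hS2))
  rw [← ENNReal.ofReal_natCast]
  refine ENNReal.ofReal_le_ofReal (le_trans (le_of_eq ?_) hS3)
  congr 1; ring

theorem ev_small {b : ℝ} (hb : 0 < b) : ∀ᶠ ε : ℝ in 𝓝[>] 0, 0 < ε ∧ ε < b := by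
  filter_upwards [Ioo_mem_nhdsGT hb] with ε h using h

/-- upper bound at arbitrarily small scales -/
theorem gdim_le (hd : Tendsto d atTop atTop) {ρ : X × X → ℝ}
    {D : (n : ℕ) → (Fin n → X) → (Fin n → X) → ℝ} {a : ℝ}
    (h : ∀ b, 0 < b → ∃ ε, 0 < ε ∧ ε < b ∧ ∃ F δ, 0 < δ ∧
      Bd σ ρ F δ D ε (a * Real.log (1 / ε))) : gdim σ ρ D ≤ a := by
  refine liminf_le_of_frequently_le ?_
  rw [(nhdsGT_basis (0 : ℝ)).frequently_iff]
  intro b hb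
  obtain ⟨ε, h0, h1, F, δ, hδ, hB⟩ := h (min b 1) (lt_min hb one_pos)
  exact ⟨ε, ⟨h0, h1.trans_le (min_le_left _ _)⟩,
    inner_le hd hδ h0 (h1.trans_le (min_le_right _ _)) hB⟩

theorem of_gdim_lt (hd : Tendsto d atTop atTop) {ρ : X × X → ℝ}
    {D : (n : ℕ) → (Fin n → X) → (Fin n → X) → ℝ} {a : ℝ} (h : gdim σ ρ D < a) :
    ∃ᶠ ε : ℝ in 𝓝[>] 0, 0 < ε ∧ ε < 1 ∧ ∃ F δ, 0 < δ ∧
      Bd σ ρ F δ D ε (a * Real.log (1 / ε)) := by
  refine ((frequently_lt_of_liminf_lt (by isBoundedDefault) h).and_eventually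
    (ev_small one_pos)).mono ?_
  rintro ε ⟨h, h0, h1⟩
  exact ⟨h0, h1, of_inner_lt hd h0 h1 h⟩

theorem le_gdim (hd : Tendsto d atTop atTop) {ρ : X × X → ℝ}
    {D : (n : ℕ) → (Fin n → X) → (Fin n → X) → ℝ} {a : ℝ}
    (h : ∀ᶠ ε : ℝ in 𝓝[>] 0, Lo σ ρ D ε (a * Real.log (1 / ε))) : (a : EReal) ≤ gdim σ ρ D := by
  refine le_liminf_of_le (by isBoundedDefault) ?_
  filter_upwards [h, ev_small one_pos] with ε h h'
  exact le_inner hd h'.1 h'.2 h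

theorem ereal_le_of_forall {x y : EReal} (h : ∀ a : ℝ, y < a → x ≤ a) : x ≤ y := by
  by_contra hc
  obtain ⟨a, h1, h2⟩ := EReal.lt_iff_exists_real_btwn.1 (not_le.1 hc)
  exact absurd (h a h1) (not_le.2 h2)

theorem ereal_le_of_forall' {x y : EReal} (h : ∀ a : ℝ, a < x → (a : EReal) ≤ y) : x ≤ y := by
  by_contra hc
  obtain ⟨a, h1, h2⟩ := EReal.lt_iff_exists_real_btwn.1 (not_le.1 hc)
  exact absurd (h a h2) (not_le.2 h1)

theorem Bd.mono {ρ ρ' : X × X → ℝ} {F F' : Finset Γ} {δ δ' : ℝ}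
    {D D' : (n : ℕ) → (Fin n → X) → (Fin n → X) → ℝ} {ε ε' c c' : ℝ}
    (h : Bd σ ρ F δ D ε c)
    (hM : ∀ᶠ i in atTop, MapSet ρ' F' δ' (σ i) ⊆ MapSet ρ F δ (σ i))
    (hD : ∀ n, 0 < n → ∀ a b, ε' ≤ D' n a b → ε ≤ D n a b) (hc : c ≤ c')
    (hd : Tendsto d atTop atTop) : Bd σ ρ' F' δ' D' ε' c' := by
  filter_upwards [h, hM, hd.eventually_gt_atTop 0] with i hi hi2 hi3 S hS1 hS2
  refine (hi S (hS1.trans hi2) (hS2.mono' fun a b hab => hD _ hi3 a b hab)).trans ?_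
  exact Real.exp_le_exp.2 (mul_le_mul_of_nonneg_right hc (Nat.cast_nonneg _))

theorem gdim_mono (hd : Tendsto d atTop atTop) {ρ : X × X → ℝ}
    {D D' : (n : ℕ) → (Fin n → X) → (Fin n → X) → ℝ}
    (h : ∀ n, 0 < n → ∀ a b, D' n a b ≤ D n a b) : gdim σ ρ D' ≤ gdim σ ρ D := by
  refine ereal_le_of_forall fun a ha => gdim_le hd fun b hb => ?_
  obtain ⟨ε, ⟨h0, -, F, δ, hδ, hB⟩, -, h1⟩ :=
    ((of_gdim_lt hd ha).and_eventually (ev_small hb)).exists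
  exact ⟨ε, h0, h1, F, δ, hδ, hB.mono (Eventually.of_forall fun _ => le_rfl)
    (fun n hn a b hab => hab.trans (h n hn a b)) le_rfl hd⟩

end bridge

section rho
variable {X : Type} {ρ : X × X → ℝ} {n : ℕ}

theorem rhoP_top (φ ψ : Fin n → X) : rhoP ρ ⊤ φ ψ = ⨆ j, ρ (φ j, ψ j) := if_pos rfl

theorem le_rhoP_top (φ ψ : Fin n → X) (j : Fin n) : ρ (φ j, ψ j) ≤ rhoP ρ ⊤ φ ψ := by
  rw [rhoP_top]
  exact le_ciSup (f := fun j => ρ (φ j, ψ j)) (Set.finite_range _).bddAbove j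

theorem rhoP_top_le {φ ψ : Fin n → X} {c : ℝ} (hc : 0 ≤ c) (h : ∀ j, ρ (φ j, ψ j) ≤ c) :
    rhoP ρ ⊤ φ ψ ≤ c := by
  rw [rhoP_top]; exact Real.iSup_le h hc

theorem rhoP_symm (hs : ∀ x y, ρ (x, y) = ρ (y, x)) (p : ℝ≥0∞) (φ ψ : Fin n → X) :
    rhoP ρ p φ ψ = rhoP ρ p ψ φ := by
  unfold rhoP
  simp only [hs (φ _)]

theorem rhoP_fin {p : ℝ≥0∞} (hp : p ≠ ⊤) (φ ψ : Fin n → X) :
    rhoP ρ p φ ψ = ((∑ j, ρ (φ j, ψ j) ^ p.toReal) / n) ^ (1 / p.toReal) := if_neg hp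

theorem avg_nonneg (h0 : ∀ z, 0 ≤ ρ z) (q : ℝ) (φ ψ : Fin n → X) :
    0 ≤ (∑ j, ρ (φ j, ψ j) ^ q) / n :=
  div_nonneg (Finset.sum_nonneg fun _ _ => Real.rpow_nonneg (h0 _) _) (Nat.cast_nonneg _)

theorem rhoP_le_iff (h0 : ∀ z, 0 ≤ ρ z) {p : ℝ≥0∞} (hp0 : p ≠ 0) (hp : p ≠ ⊤) (hn : 0 < n)
    (φ ψ : Fin n → X) {e : ℝ} (he : 0 ≤ e) :
    rhoP ρ p φ ψ ≤ e ↔ ∑ j, ρ (φ j, ψ j) ^ p.toReal ≤ e ^ p.toReal * n := by
  have hq : 0 < p.toReal := ENNReal.toReal_pos hp0 hp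
  rw [rhoP_fin hp, one_div, Real.rpow_inv_le_iff_of_pos (avg_nonneg h0 _ _ _) he hq,
    div_le_iff₀ (by exact_mod_cast hn)]

theorem le_rhoP_iff (h0 : ∀ z, 0 ≤ ρ z) {p : ℝ≥0∞} (hp0 : p ≠ 0) (hp : p ≠ ⊤) (hn : 0 < n)
    (φ ψ : Fin n → X) {e : ℝ} (he : 0 ≤ e) :
    e ≤ rhoP ρ p φ ψ ↔ e ^ p.toReal * n ≤ ∑ j, ρ (φ j, ψ j) ^ p.toReal := by
  have hq : 0 < p.toReal := ENNReal.toReal_pos hp0 hp
  rw [rhoP_fin hp, one_div, Real.le_rpow_inv_iff_of_pos he (avg_nonneg h0 _ _ _) hq,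
    le_div_iff₀ (by exact_mod_cast hn)]

theorem rhoP_nonneg (h0 : ∀ z, 0 ≤ ρ z) (p : ℝ≥0∞) (φ ψ : Fin n → X) : 0 ≤ rhoP ρ p φ ψ := by
  unfold rhoP
  split_ifs
  · exact Real.iSup_nonneg fun j => h0 _
  · exact Real.rpow_nonneg (avg_nonneg h0 _ _ _) _

theorem rhoP_le_top (h0 : ∀ z, 0 ≤ ρ z) {p : ℝ≥0∞} (hp0 : p ≠ 0) (hn : 0 < n)
    (φ ψ : Fin n → X) : rhoP ρ p φ ψ ≤ rhoP ρ ⊤ φ ψ := by
  by_cases hp : p = ⊤
  · rw [hp]
  rw [rhoP_le_iff h0 hp0 hp hn _ _ (rhoP_nonneg h0 _ _ _)]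
  calc ∑ j, ρ (φ j, ψ j) ^ p.toReal ≤ ∑ _j : Fin n, rhoP ρ ⊤ φ ψ ^ p.toReal :=
        Finset.sum_le_sum fun j _ =>
          Real.rpow_le_rpow (h0 _) (le_rhoP_top φ ψ j) ENNReal.toReal_nonneg
    _ = _ := by simp [mul_comm]

open Classical in
/-- Chebyshev -/
theorem cheb (h0 : ∀ z, 0 ≤ ρ z) {p : ℝ≥0∞} (hp0 : p ≠ 0) (hp : p ≠ ⊤) (hn : 0 < n)
    {φ ψ : Fin n → X} {e t : ℝ} (he : 0 ≤ e) (ht : 0 < t) (h : rhoP ρ p φ ψ ≤ e) :
    ((Finset.univ.filter fun j => t ≤ ρ (φ j, ψ j)).card : ℝ) ≤ (e / t) ^ p.toReal * n := by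
  rw [rhoP_le_iff h0 hp0 hp hn _ _ he] at h
  have htq : 0 < t ^ p.toReal := Real.rpow_pos_of_pos ht _
  rw [Real.div_rpow he ht.le, div_mul_eq_mul_div, le_div_iff₀ htq]
  refine le_trans ?_ h
  calc ((Finset.univ.filter fun j => t ≤ ρ (φ j, ψ j)).card : ℝ) * t ^ p.toReal
      = ∑ _j ∈ Finset.univ.filter fun j => t ≤ ρ (φ j, ψ j), t ^ p.toReal := by simp
    _ ≤ ∑ j ∈ Finset.univ.filter fun j => t ≤ ρ (φ j, ψ j), ρ (φ j, ψ j) ^ p.toReal :=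
        Finset.sum_le_sum fun j hj =>
          Real.rpow_le_rpow ht.le (Finset.mem_filter.1 hj).2 ENNReal.toReal_nonneg
    _ ≤ _ := Finset.sum_le_sum_of_subset_of_nonneg (Finset.filter_subset _ _)
          fun j _ _ => Real.rpow_nonneg (h0 _) _

/-- converse of Chebyshev -/
theorem sum_le_of_bad (h0 : ∀ z, 0 ≤ ρ z) {q : ℝ} (hq : 0 ≤ q) {φ ψ : Fin n → X}
    {t D κ : ℝ} (ht : 0 ≤ t) (hD0 : 0 ≤ D) (B : Finset (Fin n))
    (hD : ∀ j ∈ B, ρ (φ j, ψ j) ≤ D) (hB : (B.card : ℝ) ≤ κ * n)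
    (h : ∀ j, j ∉ B → ρ (φ j, ψ j) ≤ t) :
    ∑ j, ρ (φ j, ψ j) ^ q ≤ (t ^ q + κ * D ^ q) * n := by
  have hDq : 0 ≤ D ^ q := Real.rpow_nonneg hD0 _
  have htq : 0 ≤ t ^ q := Real.rpow_nonneg ht _
  calc ∑ j, ρ (φ j, ψ j) ^ q ≤ ∑ j : Fin n, (t ^ q + if j ∈ B then D ^ q else 0) := by
        refine Finset.sum_le_sum fun j _ => ?_
        split_ifs with hj
        · linarith [Real.rpow_le_rpow (h0 _) (hD j hj) hq]
        · linarith [Real.rpow_le_rpow (h0 _) (h j hj) hq]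
    _ = t ^ q * n + B.card * D ^ q := by
        rw [Finset.sum_add_distrib, Finset.sum_ite_mem]; simp [mul_comm]
    _ ≤ _ := by nlinarith [mul_le_mul_of_nonneg_right hB hDq]

end rho

section count

theorem exists_max_sep {A : Type} (T : Finset A) (R : A → A → Prop)
    (hR : ∀ a b, R a b → R b a) :
    ∃ S ⊆ T, (S : Set A).Pairwise R ∧ ∀ a ∈ T, ∃ b ∈ S, a = b ∨ ¬ R a b := by
  classical
  obtain ⟨S, hS, hmax⟩ := Finset.exists_max_image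
    (T.powerset.filter fun S : Finset A => (S : Set A).Pairwise R) Finset.card
    ⟨∅, by simp⟩
  rw [Finset.mem_filter, Finset.mem_powerset] at hS
  refine ⟨S, hS.1, hS.2, fun a ha => ?_⟩
  by_contra hc
  push Not at hc
  have haS : a ∉ S := fun h => (hc a h).1 rfl
  have := hmax (insert a S) (by
    rw [Finset.mem_filter, Finset.mem_powerset, Finset.coe_insert]
    refine ⟨Finset.insert_subset ha hS.1, hS.2.insert fun b hb _ => ?_⟩
    exact ⟨(hc b hb).2, hR _ _ (hc b hb).2⟩)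
  rw [Finset.card_insert_of_notMem haS] at this
  omega

theorem card_codes {β : Type} [DecidableEq β] {n : ℕ} (Bs : Finset β) {M k : ℝ} (hM : 1 ≤ M)
    (hB : (Bs.card : ℝ) ≤ M) :
    (((Fintype.piFinset fun _ : Fin n => Finset.insertNone Bs).filter fun c =>
      ((Finset.univ.filter fun j => c j ≠ none).card : ℝ) ≤ k).card : ℝ) ≤ 2 ^ n * M ^ k := by
  have hM0 : 0 < M := by linarith
  set w : Option β → ℝ := fun o => if o = none then 1 else M⁻¹ with hw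
  have hw0 : ∀ o, 0 ≤ w o := fun o => by
    simp only [hw]; split_ifs <;> positivity
  have h1 : ∑ c ∈ Fintype.piFinset fun _ : Fin n => Finset.insertNone Bs, ∏ j, w (c j)
      ≤ 2 ^ n := by
    rw [← Finset.prod_univ_sum]
    have : ∑ o ∈ Finset.insertNone Bs, w o ≤ 2 := by
      rw [Finset.sum_insertNone]
      simp only [hw, if_true, reduceCtorEq, if_false, Finset.sum_const, nsmul_eq_mul]
      have : (Bs.card : ℝ) * M⁻¹ ≤ 1 := by rw [← div_eq_mul_inv, div_le_one hM0]; exact hB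
      linarith
    calc _ ≤ ∏ _j : Fin n, (2 : ℝ) :=
          Finset.prod_le_prod (fun _ _ => Finset.sum_nonneg fun o _ => hw0 o) fun _ _ => this
      _ = _ := by simp
  have hk : 0 < M ^ k := Real.rpow_pos_of_pos hM0 _
  rw [← div_le_iff₀ hk]
  refine le_trans ?_ h1
  refine le_trans ?_ (Finset.sum_le_sum_of_subset_of_nonneg (Finset.filter_subset (fun c =>
      ((Finset.univ.filter fun j => c j ≠ none).card : ℝ) ≤ k) _)
    fun c _ _ => Finset.prod_nonneg fun j _ => hw0 _)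
  rw [div_eq_mul_inv, ← nsmul_eq_mul, ← Finset.sum_const]
  refine Finset.sum_le_sum fun c hc => ?_
  have hc2 := (Finset.mem_filter.1 hc).2
  simp only [hw]
  rw [Finset.prod_ite, Finset.prod_const_one, one_mul, Finset.prod_const, inv_pow,
    ← Real.rpow_natCast]
  exact inv_anti₀ (Real.rpow_pos_of_pos hM0 _) (Real.rpow_le_rpow_of_exponent_le hM hc2)

open Classical in
theorem count_le {A β : Type} {n : ℕ} (T S : Finset A) (Bs : Finset β) {M k : ℝ} (hM : 1 ≤ M)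
    (hB : (Bs.card : ℝ) ≤ M) (cell : A → Fin n → β) (good : A → A → Fin n → Prop)
    (hc : ∀ a ∈ T, ∀ j, cell a j ∈ Bs)
    (h1 : ∀ a ∈ T, ∃ b ∈ S, ((Finset.univ.filter fun j => ¬ good a b j).card : ℝ) ≤ k)
    (h2 : ∀ a ∈ T, ∀ a' ∈ T, ∀ b ∈ S,
      (∀ j, (good a b j ∧ good a' b j) ∨ cell a j = cell a' j) → a = a') :
    (T.card : ℝ) ≤ S.card * (2 ^ n * M ^ k) := by
  choose! f hf hf2 using h1
  refine le_trans ?_ (mul_le_mul_of_nonneg_left (card_codes (n := n) (k := k) Bs hM hB)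
    (Nat.cast_nonneg _))
  rw [← Nat.cast_mul, ← Finset.card_product, Nat.cast_le]
  refine Finset.card_le_card_of_injOn
    (fun a => (f a, fun j => if good a (f a) j then none else some (cell a j))) ?_ ?_
  · intro a ha
    simp only [Finset.coe_product, Set.mem_prod, Finset.mem_coe, Finset.mem_filter,
      Fintype.mem_piFinset]
    refine ⟨hf a ha, fun j => ?_, ?_⟩
    · split_ifs
      · simp
      · simpa using hc a ha j
    · refine le_trans (le_of_eq ?_) (hf2 a ha)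
      congr 2
      ext j
      by_cases h : good a (f a) j <;> simp [h]
  · intro a ha a' ha' h
    simp only [Prod.mk.injEq] at h
    refine h2 a ha a' ha' (f a) (hf a ha) fun j => ?_
    have := congrFun h.2 j
    rw [← h.1] at this
    by_cases g1 : good a (f a) j <;> by_cases g2 : good a' (f a) j <;> simp_all

end count

end Pool.Agent.MP9d0111

end

section

namespace Pool.Agent.MP9d0111

open Filter Topology
open scoped ENNReal

section cnt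
variable {n : ℕ}

open Classical in
/-- number of `j` with `P j` -/
noncomputable def cnt (P : Fin n → Prop) : ℝ := ((Finset.univ.filter P).card : ℝ)

theorem cnt_eq (P : Fin n → Prop) [DecidablePred P] :
    cnt P = ((Finset.univ.filter P).card : ℝ) := by
  unfold cnt; congr

theorem cnt_nonneg (P : Fin n → Prop) : 0 ≤ cnt P := Nat.cast_nonneg _

theorem cnt_mono {P Q : Fin n → Prop} (h : ∀ j, P j → Q j) : cnt P ≤ cnt Q := by
  classical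
  rw [cnt_eq, cnt_eq, Nat.cast_le]
  exact Finset.card_le_card fun j hj => by simpa using h j (by simpa using hj)

theorem cnt_or (P Q : Fin n → Prop) : cnt (fun j => P j ∨ Q j) ≤ cnt P + cnt Q := by
  classical
  rw [cnt_eq, cnt_eq, cnt_eq, Finset.filter_or, ← Nat.cast_add, Nat.cast_le]
  exact Finset.card_union_le _ _

theorem cnt_or_le {P Q : Fin n → Prop} {a b : ℝ} (h1 : cnt P ≤ a) (h2 : cnt Q ≤ b) :
    cnt (fun j => P j ∨ Q j) ≤ a + b := (cnt_or P Q).trans (add_le_add h1 h2)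

theorem cnt_ex {ι : Type} (F : Finset ι) (P : ι → Fin n → Prop) {c : ℝ}
    (h : ∀ u ∈ F, cnt (P u) ≤ c) : cnt (fun j => ∃ u ∈ F, P u j) ≤ F.card * c := by
  classical
  induction F using Finset.induction_on with
  | empty => simp [cnt_eq]
  | insert a s ha ih =>
    have h1 := ih fun u hu => h u (Finset.mem_insert_of_mem hu)
    have h2 := h a (Finset.mem_insert_self _ _)
    rw [Finset.card_insert_of_notMem ha]
    refine (cnt_mono (Q := fun j => P a j ∨ ∃ u ∈ s, P u j) fun j hj => by simpa using hj).trans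
      ((cnt_or_le h2 h1).trans (le_of_eq ?_))
    push_cast; ring

theorem cnt_comp (π : Equiv.Perm (Fin n)) (P : Fin n → Prop) :
    cnt (fun j => P (π j)) = cnt P := by
  classical
  rw [cnt_eq, cnt_eq, Nat.cast_inj]
  exact Finset.card_equiv π (by simp)

theorem cnt_not (P : Fin n → Prop) : cnt (fun j => ¬ P j) = n - cnt P := by
  classical
  rw [cnt_eq, cnt_eq, eq_sub_iff_add_eq, add_comm, ← Nat.cast_add,
    Finset.card_filter_add_card_filter_not]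
  simp

theorem cnt_le (P : Fin n → Prop) : cnt P ≤ n := by
  have := cnt_not P
  have := cnt_nonneg fun j => ¬ P j
  linarith

theorem cnt_mem (B : Finset (Fin n)) : cnt (fun j => j ∈ B) = B.card := by
  rw [cnt_eq]; simp

theorem exp_count (c k : ℝ) {M : ℝ} (hM : 0 < M) :
    Real.exp (c * n) * (2 ^ n * M ^ (k * n)) =
      Real.exp ((c + Real.log 2 + k * Real.log M) * n) := by
  have : (2 : ℝ) ^ n = Real.exp (Real.log 2 * n) := by
    rw [mul_comm, Real.exp_nat_mul, Real.exp_log two_pos]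
  rw [Real.rpow_def_of_pos hM, this, ← Real.exp_add, ← Real.exp_add]
  congr 1; ring

theorem cheb' {X : Type} {ρ : X × X → ℝ} (h0 : ∀ z, 0 ≤ ρ z) {p : ℝ≥0∞} (hp0 : p ≠ 0)
    (hp : p ≠ ⊤) (hn : 0 < n) {φ ψ : Fin n → X} {e t : ℝ} (he : 0 ≤ e) (ht : 0 < t)
    (h : rhoP ρ p φ ψ ≤ e) : cnt (fun j => t ≤ ρ (φ j, ψ j)) ≤ (e / t) ^ p.toReal * n := by
  have := cheb h0 hp0 hp hn he ht h
  rwa [← cnt_eq] at this

theorem map_bad {Γ X : Type} [Group Γ] [MulAction Γ X] {ρ : X × X → ℝ} (h0 : ∀ z, 0 ≤ ρ z)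
    (hn : 0 < n) {F : Finset Γ} {δ t : ℝ} (hδ : 0 ≤ δ) (ht : 0 < t)
    {τ : Γ → Equiv.Perm (Fin n)} {φ : Fin n → X} (hφ : φ ∈ MapSet ρ F δ τ) {s : Γ} (hs : s ∈ F) :
    cnt (fun j => t ≤ ρ (φ (τ s j), s • φ j)) ≤ (δ / t) ^ 2 * n := by
  have := cheb' h0 two_ne_zero ENNReal.ofNat_ne_top hn hδ ht (hφ s hs)
  simpa using this

theorem mem_map_of_bad {Γ X : Type} [Group Γ] [MulAction Γ X] {ρ : X × X → ℝ}
    (h0 : ∀ z, 0 ≤ ρ z) (hn : 0 < n) {F : Finset Γ} {δ t D κ : ℝ} (hδ : 0 ≤ δ) (ht : 0 ≤ t)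
    (hD0 : 0 ≤ D) (hD : ∀ z, ρ z ≤ D) (hκ : t ^ 2 + κ * D ^ 2 ≤ δ ^ 2)
    {τ : Γ → Equiv.Perm (Fin n)} {φ : Fin n → X}
    (h : ∀ s ∈ F, cnt (fun j => t < ρ (φ (τ s j), s • φ j)) ≤ κ * n) : φ ∈ MapSet ρ F δ τ := by
  classical
  intro s hs
  rw [rhoP_le_iff h0 two_ne_zero ENNReal.ofNat_ne_top hn _ _ hδ]
  have h1 := h s hs
  rw [cnt_eq] at h1
  refine (sum_le_of_bad h0 ENNReal.toReal_nonneg ht hD0 _ (fun j _ => hD _) h1
    fun j hj => by simpa using hj).trans ?_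
  refine mul_le_mul_of_nonneg_right ?_ (Nat.cast_nonneg _)
  simpa using hκ

end cnt

section sofic
variable {Γ : Type} [Group Γ] {d : ℕ → ℕ} {σ : ∀ i, Γ → Equiv.Perm (Fin (d i))}

theorem IsSofic.mul_ev (h : IsSofic d σ) (s t : Γ) {ξ : ℝ} (hξ : 0 < ξ) :
    ∀ᶠ i in atTop, cnt (fun j => σ i (s * t) j ≠ σ i s (σ i t j)) ≤ ξ * d i := by
  filter_upwards [(h.2.1 s t).eventually (lt_mem_nhds (show 1 - ξ < 1 by linarith)),
    h.1.eventually_gt_atTop 0] with i hi hi0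
  have : (0 : ℝ) < d i := by exact_mod_cast hi0
  rw [lt_div_iff₀ this, ← cnt_eq] at hi
  rw [cnt_not]; linarith

theorem IsSofic.fix_ev (h : IsSofic d σ) {s : Γ} (hs : s ≠ 1) {ξ : ℝ} (hξ : 0 < ξ) :
    ∀ᶠ i in atTop, cnt (fun j => σ i s j = j) ≤ ξ * d i := by
  filter_upwards [(h.2.2 s hs).eventually (gt_mem_nhds hξ),
    h.1.eventually_gt_atTop 0] with i hi hi0
  have : (0 : ℝ) < d i := by exact_mod_cast hi0
  rw [div_lt_iff₀ this, ← cnt_eq] at hi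
  exact hi.le

end sofic

section pm
variable {X : Type} [TopologicalSpace X]

theorem PM.nonneg (ρ : PM X) (z : X × X) : 0 ≤ ρ.1 z := by
  have h1 := ρ.2.2.2 z.1 z.2 z.1
  rw [ρ.2.1, ρ.2.2.1 z.2] at h1
  have : 0 ≤ ρ.1 (z.1, z.2) := by linarith
  exact this

theorem PM.bdd [CompactSpace X] (ρ : PM X) : ∃ D : ℝ, 0 < D ∧ ∀ z, ρ.1 z ≤ D :=
  ⟨‖ρ.1‖ + 1, by positivity, fun z => by
    linarith [ρ.1.norm_coe_le_norm z, Real.le_norm_self (ρ.1 z)]⟩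

variable {Γ : Type} [Group Γ] [MulAction Γ X] [ContinuousConstSMul Γ X] [CompactSpace X]

theorem exists_F0 (ρ ρ' : PM X) (hρ : DynGen Γ ρ.1) {t : ℝ} (ht : 0 < t) :
    ∃ (F0 : Finset Γ) (η : ℝ), 0 < η ∧
      ∀ x y, (∀ s ∈ F0, ρ.1 (s • x, s • y) < η) → ρ'.1 (x, y) < t := by
  classical
  have hK : IsCompact {z : X × X | t ≤ ρ'.1 z} :=
    (isClosed_le continuous_const ρ'.1.continuous).isCompact
  obtain ⟨I, hI⟩ := hK.elim_finite_subcover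
    (fun u : Γ × ℕ => {z : X × X | 1 / ((u.2 : ℝ) + 1) < ρ.1 (u.1 • z.1, u.1 • z.2)})
    (fun u => isOpen_lt continuous_const (by fun_prop)) (by
      rintro ⟨x, y⟩ hz
      have hxy : x ≠ y := by
        rintro rfl
        have : t ≤ ρ'.1 (x, x) := hz
        rw [ρ'.2.1] at this; linarith
      obtain ⟨s, hs⟩ := hρ x y hxy
      obtain ⟨k, hk⟩ := exists_nat_one_div_lt hs
      exact Set.mem_iUnion.2 ⟨(s, k), hk⟩)
  refine ⟨I.image Prod.fst, 1 / ((I.sup Prod.snd : ℕ) + 1), by positivity, fun x y h => ?_⟩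
  by_contra hc
  obtain ⟨u, hu, hu2⟩ := Set.mem_iUnion₂.1 (hI (show (x, y) ∈ _ from not_lt.1 hc))
  have h1 := h u.1 (Finset.mem_image_of_mem _ hu)
  have h2 : (u.2 : ℝ) ≤ (I.sup Prod.snd : ℕ) := by
    exact_mod_cast Finset.le_sup (f := Prod.snd) hu
  have h3 : 1 / (((I.sup Prod.snd : ℕ) : ℝ) + 1) ≤ 1 / ((u.2 : ℝ) + 1) :=
    one_div_le_one_div_of_le (by positivity) (by linarith)
  have h4 : 1 / ((u.2 : ℝ) + 1) < ρ.1 (u.1 • x, u.1 • y) := hu2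
  linarith

theorem cofinal {d : ℕ → ℕ} {σ : ∀ i, Γ → Equiv.Perm (Fin (d i))} (hσ : IsSofic d σ)
    (ρ ρ' : PM X) (hρ : DynGen Γ ρ.1) (F' : Finset Γ) {δ' : ℝ} (hδ' : 0 < δ') :
    ∃ (F : Finset Γ) (δ : ℝ), 0 < δ ∧
      ∀ᶠ i in atTop, MapSet ρ.1 F δ (σ i) ⊆ MapSet ρ'.1 F' δ' (σ i) := by
  classical
  obtain ⟨D, hD0, hD⟩ := ρ'.bdd
  obtain ⟨F0, η, hη, hF0⟩ := exists_F0 ρ ρ' hρ (half_pos hδ')
  obtain ⟨ξ, hξ, hξ2⟩ : ∃ ξ : ℝ, 0 < ξ ∧ (F0.card * (3 * ξ)) * D ^ 2 ≤ δ' ^ 2 / 2 := by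
    refine ⟨δ' ^ 2 / (6 * (F0.card + 1) * D ^ 2), by positivity, ?_⟩
    have : (F0.card : ℝ) * (3 * (δ' ^ 2 / (6 * (F0.card + 1) * D ^ 2))) * D ^ 2
        = δ' ^ 2 / 2 * (F0.card / (F0.card + 1)) := by field_simp; ring
    rw [this]
    refine mul_le_of_le_one_right (by positivity) ?_
    rw [div_le_one (by positivity)]; linarith
  refine ⟨F0 ∪ (F0 ×ˢ F').image fun u => u.1 * u.2, η / 2 * √ξ, by positivity, ?_⟩
  have hm : ∀ᶠ i in atTop, ∀ u ∈ F0 ×ˢ F',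
      cnt (fun j => σ i (u.1 * u.2) j ≠ σ i u.1 (σ i u.2 j)) ≤ ξ * d i :=
    (eventually_all_finset _).2 fun u _ => hσ.mul_ev u.1 u.2 hξ
  filter_upwards [hm, hσ.1.eventually_gt_atTop 0] with i hi hi0 φ hφ
  have hq : (η / 2 * √ξ / (η / 2)) ^ 2 = ξ := by
    rw [mul_div_cancel_left₀ _ (by positivity), Real.sq_sqrt hξ.le]
  refine mem_map_of_bad ρ'.nonneg hi0 hδ'.le (half_pos hδ').le hD0.le hD
    (κ := F0.card * (3 * ξ)) (by nlinarith) fun s hs => ?_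
  refine (cnt_mono (Q := fun j => ∃ u ∈ F0,
    (η / 2 ≤ ρ.1 (φ (σ i u (σ i s j)), u • φ (σ i s j)) ∨
      σ i (u * s) j ≠ σ i u (σ i s j)) ∨
      η / 2 ≤ ρ.1 (φ (σ i (u * s) j), (u * s) • φ j)) fun j hj => ?_).trans ?_
  · by_contra hc
    push Not at hc
    refine absurd (hF0 _ _ fun u hu => ?_) (not_lt.2 hj.le)
    obtain ⟨⟨h1, h2⟩, h3⟩ := hc u hu
    rw [h2, mul_smul] at h3
    have := ρ.2.2.2 (u • φ (σ i s j)) (φ (σ i u (σ i s j))) (u • s • φ j)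
    rw [ρ.2.2.1] at h1
    linarith
  · rw [mul_assoc]
    refine cnt_ex _ _ fun u hu => ?_
    have hus : (u, s) ∈ F0 ×ˢ F' := Finset.mem_product.2 ⟨hu, hs⟩
    have h1 := map_bad ρ.nonneg hi0 (by positivity) (half_pos hη) hφ
      (Finset.mem_union_left _ hu)
    have h3 := map_bad ρ.nonneg hi0 (by positivity) (half_pos hη) hφ
      (Finset.mem_union_right _ (Finset.mem_image_of_mem _ hus))
    rw [← cnt_comp (σ i s), hq] at h1
    rw [hq] at h3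
    refine (cnt_or_le (cnt_or_le h1 (hi _ hus)) h3).trans (le_of_eq (by ring))

end pm

end Pool.Agent.MP9d0111

end
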